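import Mathlib
import Pool.Agent.H252.EL.Iface

/-!
# EL-TRB: tracial functionals on `C(Z, M_n)` factor through the pointwise trace
-/

set_option autoImplicit false

namespace Pool.Agent.H772.ELTRB

open Pool.Agent.H252.EL

open scoped Matrix.Norms.L2Operator

variable {Z : Type} [TopologicalSpace Z] [CompactSpace Z] {n : ℕ}

/-- the function `f` at the matrix unit `(k, l)` -/
noncomputable def E (k l : Fin n) (f : C(Z, ℂ)) : BB Z n :=
  ⟨fun z => f z • (Matrix.single k l (1 : ℂ)), by fun_prop⟩

theorem E_apply (k l : Fin n) (f : C(Z, ℂ)) (z : Z) :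
    E k l f z = f z • (Matrix.single k l (1 : ℂ)) := rfl

/-- the entries -/
noncomputable def ent (a : BB Z n) (k l : Fin n) : C(Z, ℂ) :=
  ⟨fun z => a z k l, (a.continuous).matrix_elem k l⟩

theorem sum_E (a : BB Z n) : a = ∑ k, ∑ l, E k l (ent a k l) := by
  ext z i j
  simp only [ContinuousMap.sum_apply, E_apply, Matrix.sum_apply, Matrix.smul_apply]
  rw [Finset.sum_eq_single i, Finset.sum_eq_single j]
  · simp [ent]
  · intro b _ hb
    simp [hb]
  · intro h
    exact absurd (Finset.mem_univ _) h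
  · intro b _ hb
    refine Finset.sum_eq_zero fun l _ => ?_
    simp [hb]
  · intro h
    exact absurd (Finset.mem_univ _) h

theorem E_mul (k l m : Fin n) (f : C(Z, ℂ)) : E k l f * E l m 1 = E k m f := by
  ext1 z
  rw [ContinuousMap.mul_apply, E_apply, E_apply, E_apply, ContinuousMap.one_apply, one_smul,
    smul_mul_assoc, Matrix.single_mul_single_same, mul_one]

theorem E_mul' (k l m : Fin n) (f : C(Z, ℂ)) : E k l 1 * E l m f = E k m f := by
  ext1 z
  rw [ContinuousMap.mul_apply, E_apply, E_apply, E_apply, ContinuousMap.one_apply, one_smul,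
    mul_smul_comm, Matrix.single_mul_single_same, mul_one]

theorem E_mul_zero (k l m p : Fin n) (h : l ≠ m) (f g : C(Z, ℂ)) : E k l f * E m p g = 0 := by
  ext1 z
  rw [ContinuousMap.mul_apply, E_apply, E_apply, ContinuousMap.zero_apply, smul_mul_smul_comm,
    Matrix.single_mul_single_of_ne _ _ _ _ h, smul_zero]

theorem E_smul (k l : Fin n) (c : ℂ) (f : C(Z, ℂ)) : E k l (c • f) = c • E k l f := by
  ext1 z
  rw [ContinuousMap.smul_apply, E_apply, E_apply, ContinuousMap.smul_apply, smul_assoc]

theorem E_sum (k l : Fin n) {ι : Type} (s : Finset ι) (f : ι → C(Z, ℂ)) :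
    E k l (∑ i ∈ s, f i) = ∑ i ∈ s, E k l (f i) := by
  ext1 z
  rw [E_apply, ContinuousMap.sum_apply, ContinuousMap.sum_apply, Finset.sum_smul]
  rfl

theorem sc_eq (f : C(Z, ℂ)) : sc n f = ∑ k, E k k f := by
  ext z i j
  simp only [sc, ContinuousMap.coe_mk, ContinuousMap.sum_apply, E_apply, Matrix.sum_apply,
    Matrix.smul_apply]
  rw [Finset.sum_eq_single i]
  · by_cases h : i = j
    · subst h
      simp
    · simp [h]
  · intro b _ hb
    simp [hb]
  · intro h
    exact absurd (Finset.mem_univ _) h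

theorem s_TRB : S_TRB := by
  intro Z _ _ n t ht a
  rcases Nat.eq_zero_or_pos n with h0 | hpos
  · subst h0
    congr 1
    ext z i j
    exact i.elim0
  · let m : Fin n := ⟨0, hpos⟩
    have h1 : ∀ (k l : Fin n) (f : C(Z, ℂ)), k ≠ l → t (E k l f) = 0 := by
      intro k l f h
      rw [← E_mul k k l f, ht, E_mul_zero _ _ _ _ h.symm, map_zero]
    have h2 : ∀ (k : Fin n) (f : C(Z, ℂ)), t (E k k f) = t (E m m f) := by
      intro k f
      rw [← E_mul k m k f, ht, E_mul']
    have h3 : t a = t (E m m (∑ k, ent a k k)) := by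
      conv_lhs => rw [sum_E a]
      rw [map_sum, E_sum, map_sum]
      refine Finset.sum_congr rfl fun k _ => ?_
      rw [map_sum, Finset.sum_eq_single k]
      · exact h2 k _
      · intro l _ hl
        exact h1 k l _ hl.symm
      · intro h
        exact absurd (Finset.mem_univ _) h
    have h4 : ∀ f : C(Z, ℂ), t (sc n f) = (n : ℂ) * t (E m m f) := by
      intro f
      rw [sc_eq, map_sum, Finset.sum_congr rfl fun k _ => h2 k f, Finset.sum_const,
        Finset.card_univ, Fintype.card_fin, nsmul_eq_mul]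
    have h5 : ctr a = (n : ℂ)⁻¹ • ∑ k, ent a k k := by
      ext z
      rw [ContinuousMap.smul_apply, ContinuousMap.sum_apply, smul_eq_mul]
      simp only [ctr, ntr, ContinuousMap.coe_mk, Fintype.card_fin, Matrix.trace, Matrix.diag, ent]
    have hn : (n : ℂ) ≠ 0 := by exact_mod_cast hpos.ne'
    rw [h4, h5, E_smul, map_smul, smul_eq_mul, ← mul_assoc, mul_inv_cancel₀ hn, one_mul, h3]

end Pool.Agent.H772.ELTRB
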