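import Pool.Agent.H283.HT.Stm

/-!
# Convex bodies with a half-turn: transfer to Euclidean space (task TRA)
-/

set_option autoImplicit false

namespace Pool.Agent.H772.HTTRA

open Pool.Agent.H283.HT
open Module

/-- an involution with positive determinant of `ℝ³` other than the identity has a basis of
eigenvectors with the eigenvalues `-1, -1, 1` -/
theorem eig (A : E3 →ₗ[ℝ] E3) (hA : ∀ v, A (A v) = v) (hd : 0 < LinearMap.det A)
    (hne : ∃ v, A v ≠ v) :
    ∃ e₁ e₂ e : E3, A e₁ = -e₁ ∧ A e₂ = -e₂ ∧ A e = e ∧ e ≠ 0 ∧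
      ∀ x y : ℝ, x • e₁ + y • e₂ = 0 → x = 0 ∧ y = 0 := by
  classical
  have h3 : finrank ℝ E3 = 3 := by simp
  let W : Submodule ℝ E3 := LinearMap.ker (A - 1)
  have hWmem : ∀ v, v ∈ W ↔ A v = v := by
    intro v
    simp only [W, LinearMap.mem_ker, LinearMap.sub_apply, Module.End.one_apply, sub_eq_zero]
  have hWc : W ≤ W.comap A := by
    intro v hv
    rw [Submodule.mem_comap, hWmem, hA, (hWmem v).1 hv]
  have hres : A.restrict (p := W) (q := W) (fun x hx => hWc hx) = 1 := by
    apply LinearMap.ext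
    intro v
    apply Subtype.ext
    rw [LinearMap.coe_restrict_apply, Module.End.one_apply]
    exact (hWmem v.1).1 v.2
  have hmq : W.mapQ W A hWc = (-1 : ℝ) • (1 : (E3 ⧸ W) →ₗ[ℝ] (E3 ⧸ W)) := by
    apply LinearMap.ext
    intro v
    obtain ⟨v, rfl⟩ := Submodule.Quotient.mk_surjective W v
    rw [Submodule.mapQ_apply, LinearMap.smul_apply, Module.End.one_apply,
      ← Submodule.Quotient.mk_smul, Submodule.Quotient.eq, hWmem]
    simp only [neg_smul, one_smul, sub_neg_eq_add, map_add, hA]
    exact add_comm _ _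
  have hdet := LinearMap.det_eq_det_mul_det W A hWc
  rw [hres, hmq, LinearMap.det_smul, map_one, map_one, mul_one, one_mul] at hdet
  have hfr : finrank ℝ (E3 ⧸ W) + finrank ℝ W = 3 := by
    rw [Submodule.finrank_quotient_add_finrank, h3]
  have hWtop : finrank ℝ W ≠ 3 := by
    intro h
    have : W = ⊤ := Submodule.eq_top_of_finrank_eq (by rw [h, h3])
    obtain ⟨v, hv⟩ := hne
    apply hv
    rw [← hWmem, this]
    exact Submodule.mem_top
  have hq2 : finrank ℝ (E3 ⧸ W) = 2 := by
    have hle : finrank ℝ (E3 ⧸ W) ≤ 3 := by omega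
    have h0 : finrank ℝ (E3 ⧸ W) ≠ 0 := by omega
    have h1 : finrank ℝ (E3 ⧸ W) ≠ 1 := by
      intro h
      rw [h] at hdet
      rw [hdet] at hd
      norm_num at hd
    have h33 : finrank ℝ (E3 ⧸ W) ≠ 3 := by
      intro h
      rw [h] at hdet
      rw [hdet] at hd
      norm_num at hd
    omega
  have hW1 : finrank ℝ W = 1 := by omega
  have hrk : finrank ℝ (LinearMap.range (A - 1)) = 2 := by
    have := LinearMap.finrank_range_add_finrank_ker (A - 1)
    rw [h3] at this
    have hW1' : finrank ℝ (LinearMap.ker (A - 1)) = 1 := hW1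
    omega
  have hrange : ∀ v ∈ LinearMap.range (A - 1), A v = -v := by
    rintro v ⟨w, rfl⟩
    simp only [LinearMap.sub_apply, Module.End.one_apply, map_sub, hA, neg_sub]
  obtain ⟨e, he0⟩ : ∃ e : W, e ≠ 0 := by
    have : Nontrivial W := Module.nontrivial_of_finrank_pos (R := ℝ) (by omega)
    exact exists_ne 0
  let b : Basis (Fin 2) ℝ (LinearMap.range (A - 1)) := Module.finBasisOfFinrankEq ℝ _ hrk
  refine ⟨b 0, b 1, e, hrange _ (b 0).2, hrange _ (b 1).2, (hWmem _).1 e.2, ?_, ?_⟩
  · intro h
    exact he0 (Subtype.ext h)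
  · intro x y hxy
    have hli := b.linearIndependent
    rw [Fintype.linearIndependent_iff] at hli
    have := hli ![x, y] (by
      rw [Fin.sum_univ_two]
      apply Subtype.ext
      simpa using hxy)
    exact ⟨by simpa using this 0, by simpa using this 1⟩

theorem comb (c u v : E3) (s t : ℝ) (hst : s + t = 1) :
    c + (s • u + t • v) = s • (c + u) + t • (c + v) := by
  have hc1 : s • c + t • c = c := by rw [← add_smul, hst, one_smul]
  calc c + (s • u + t • v) = (s • c + t • c) + (s • u + t • v) := by rw [hc1]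
    _ = s • (c + u) + t • (c + v) := by
      rw [smul_add, smul_add]
      exact add_add_add_comm (s • c) (t • c) (s • u) (t • v)

theorem TRA_done (hMAIN : S_MAIN) : S_TRA := by
  intro K hconv hcomp hint φ hφK hφφ hdet hne
  classical
  have hφmem : ∀ v ∈ K, φ v ∈ K := by
    intro v hv
    rw [← hφK]
    exact ⟨v, hv, rfl⟩
  -- a fixed point in the interior
  obtain ⟨m, hmI, hmφ⟩ : ∃ m ∈ interior K, φ m = m := by
    obtain ⟨k, hk⟩ := hint
    refine ⟨midpoint ℝ k (φ k), ?_, ?_⟩
    · have h := hconv.combo_interior_self_mem_interior hk (hφmem k (interior_subset hk))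
        (a := 1 / 2) (b := 1 / 2) (by norm_num) (by norm_num) (by norm_num)
      rw [midpoint_eq_smul_add, smul_add]
      norm_num at h ⊢
      exact h
    · rw [AffineMap.map_midpoint, hφφ, midpoint_comm]
  let A : E3 →ₗ[ℝ] E3 := φ.linear
  have hφA : ∀ v, φ (m + v) = m + A v := by
    intro v
    have h := φ.map_vadd m v
    rw [vadd_eq_add, vadd_eq_add, hmφ] at h
    rw [add_comm m v, h, add_comm]
  have hAA : ∀ v, A (A v) = v := by
    intro v
    have h := hφφ (m + v)
    rw [hφA, hφA] at h
    exact add_left_cancel h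
  have hAne : ∃ v, A v ≠ v := by
    obtain ⟨v, hv⟩ := hne
    refine ⟨v - m, fun h => hv ?_⟩
    have h2 := hφA (v - m)
    rw [h, add_sub_cancel] at h2
    exact h2
  obtain ⟨e₁, e₂, e, hA1, hA2, hAe, he0, hind⟩ := eig A hAA hdet hAne
  -- the segment on the axis
  let T : Set ℝ := (fun t : ℝ => m + t • e) ⁻¹' K
  have hTcomp : IsCompact T := by
    have hce : Topology.IsClosedEmbedding (fun t : ℝ => m + t • e) :=
      (Homeomorph.addLeft m).isClosedEmbedding.comp (isClosedEmbedding_smul_left he0)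
    exact hce.isCompact_preimage hcomp
  have hcontT : Continuous (fun t : ℝ => m + t • e) := by fun_prop
  have h0T : T ∈ nhds (0 : ℝ) := by
    apply hcontT.continuousAt.preimage_mem_nhds
    simp only [zero_smul, add_zero]
    exact mem_interior_iff_mem_nhds.1 hmI
  obtain ⟨b, hbT, hbmax⟩ := hTcomp.exists_isGreatest ⟨0, mem_of_mem_nhds h0T⟩
  obtain ⟨a, haT, hamin⟩ := hTcomp.exists_isLeast ⟨0, mem_of_mem_nhds h0T⟩
  have hab : a < b := by
    obtain ⟨ε, hε, hball⟩ := Metric.mem_nhds_iff.1 h0T
    have h1 : ε / 2 ∈ T := by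
      apply hball
      rw [Metric.mem_ball, Real.dist_eq, sub_zero, abs_of_pos (by linarith)]
      linarith
    have h2 : (0 : ℝ) ∈ T := mem_of_mem_nhds h0T
    have h3 := hbmax h1
    have h4 := hamin h2
    linarith
  let c : E3 := m + ((a + b) / 2) • e
  let e₃ : E3 := ((b - a) / 2) • e
  -- the linear part of `L`
  let L0 : P3 →ₗ[ℝ] E3 :=
    { toFun := fun x => x.1.1 • e₁ + x.1.2 • e₂ + x.2 • e₃
      map_add' := by
        intro x y
        simp only [Prod.fst_add, Prod.snd_add, add_smul]
        abel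
      map_smul' := by
        intro r x
        simp only [Prod.smul_fst, Prod.smul_snd, smul_eq_mul, mul_smul, smul_add,
          RingHom.id_apply] }
  have hL0 : ∀ x : P3, L0 x = x.1.1 • e₁ + x.1.2 • e₂ + x.2 • e₃ := fun _ => rfl
  have hAe3 : A e₃ = e₃ := by
    simp only [e₃, map_smul, hAe]
  have hAL0 : ∀ x : P3, A (L0 x) = L0 (R x) := by
    intro x
    rw [hL0, hL0, map_add, map_add, map_smul, map_smul, map_smul, hA1, hA2, hAe3]
    simp only [R, Prod.fst_neg, Prod.snd_neg, neg_smul, smul_neg]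
  have he30 : e₃ ≠ 0 := by
    apply smul_ne_zero _ he0
    linarith
  have hinj : Function.Injective L0 := by
    rw [injective_iff_map_eq_zero]
    intro x hx
    have h1 := hAL0 x
    rw [hx, map_zero, hL0] at h1
    rw [hL0] at hx
    simp only [R, Prod.fst_neg, Prod.snd_neg, neg_smul] at h1
    have h2 : x.2 • e₃ = 0 := by
      have h3 : (2 : ℝ) • (x.2 • e₃) = 0 := by
        have : (2 : ℝ) • (x.2 • e₃) = (x.1.1 • e₁ + x.1.2 • e₂ + x.2 • e₃) +
            (-(x.1.1 • e₁) + -(x.1.2 • e₂) + x.2 • e₃) := by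
          rw [two_smul]
          abel
        rw [this, hx, ← h1, add_zero]
      exact (smul_eq_zero.1 h3).resolve_left (by norm_num)
    have h4 : x.2 = 0 := (smul_eq_zero.1 h2).resolve_right he30
    rw [h2, add_zero] at hx
    obtain ⟨h5, h6⟩ := hind _ _ hx
    exact Prod.ext (Prod.ext h5 h6) h4
  have hfin : finrank ℝ P3 = finrank ℝ E3 := by
    simp [P3]
  let Le : P3 ≃ₗ[ℝ] E3 := LinearEquiv.ofInjectiveOfFinrankEq L0 hinj hfin
  have hLe : ∀ x, Le x = L0 x := fun x => rfl
  let Lc : P3 ≃L[ℝ] E3 := Le.toContinuousLinearEquiv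
  let L : P3 ≃ₜ E3 := Lc.toHomeomorph.trans (Homeomorph.addLeft c)
  have hL : ∀ x, L x = c + L0 x := fun x => rfl
  have hc : ∀ v, φ (c + v) = c + A v := by
    intro v
    have h1 : c + v = m + (((a + b) / 2) • e + v) := by
      simp only [c]
      abel
    rw [h1, hφA, map_add, map_smul, hAe]
    simp only [c]
    abel
  have hφL : ∀ x, φ (L x) = L (R x) := by
    intro x
    rw [hL, hL, hc, hAL0]
  let K' : Set P3 := L ⁻¹' K
  have hK'mem : ∀ x, x ∈ K' ↔ L x ∈ K := fun x => Iff.rfl
  have hK'int : interior K' = L ⁻¹' (interior K) := (L.preimage_interior K).symm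
  have hK'conv : Convex ℝ K' := by
    intro x hx y hy s t hs ht hst
    rw [hK'mem, hL, map_add, map_smul, map_smul]
    have h := hconv hx hy hs ht hst
    rw [hL, hL] at h
    have h2 : c + (s • L0 x + t • L0 y) = s • (c + L0 x) + t • (c + L0 y) :=
      comb c (L0 x) (L0 y) s t hst
    rw [h2]
    exact h
  have hsym : ∀ x ∈ K', R x ∈ K' := by
    intro x hx
    rw [hK'mem, ← hφL]
    exact hφmem _ hx
  have hax : ∀ z : ℝ, L ((0 : P2), z) = m + ((a + b) / 2 + z * ((b - a) / 2)) • e := by
    intro z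
    rw [hL, hL0]
    simp only [c, e₃, Prod.fst_zero, Prod.snd_zero, zero_smul, zero_add, add_smul, mul_smul]
    rw [add_assoc]
  have hz : ∀ x ∈ K', a ≤ (a + b) / 2 + x.2 * ((b - a) / 2) ∧
      (a + b) / 2 + x.2 * ((b - a) / 2) ≤ b := by
    intro x hx
    have h1 : (((0 : P2), x.2) : P3) ∈ K' := by
      have h := hK'conv hx (hsym x hx) (a := 1 / 2) (b := 1 / 2) (by norm_num) (by norm_num)
        (by norm_num)
      have h2 : (1 / 2 : ℝ) • x + (1 / 2 : ℝ) • R x = (((0 : P2), x.2) : P3) := by
        refine Prod.ext ?_ ?_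
        · simp only [R, Prod.fst_add, Prod.smul_fst, smul_neg, add_neg_cancel]
        · simp only [R, Prod.snd_add, Prod.smul_snd, smul_eq_mul]
          ring
      rw [h2] at h
      exact h
    rw [hK'mem, hax] at h1
    exact ⟨hamin h1, hbmax h1⟩
  have hbody : Body K' :=
    { conv := hK'conv
      comp := L.isCompact_preimage.2 hcomp
      inner := by
        rw [hK'int]
        exact ⟨L.symm m, by
          rw [Set.mem_preimage, L.apply_symm_apply]
          exact hmI⟩
      sym := hsym
      top := by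
        rw [hK'mem, hax]
        have : (a + b) / 2 + 1 * ((b - a) / 2) = b := by ring
        rw [this]
        exact hbT
      bot := by
        rw [hK'mem, hax]
        have : (a + b) / 2 + -1 * ((b - a) / 2) = a := by ring
        rw [this]
        exact haT
      le := by
        intro x hx
        have h := (hz x hx).2
        by_contra hcon
        push Not at hcon
        nlinarith
      ge := by
        intro x hx
        have h := (hz x hx).1
        by_contra hcon
        push Not at hcon
        nlinarith }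
  obtain ⟨D, hDc, hD⟩ := hMAIN K' hbody
  refine ⟨D.image L0, Finset.card_image_le.trans hDc, ?_⟩
  intro x hx
  have hy : L.symm x ∈ K' := by
    rw [hK'mem, L.apply_symm_apply]
    exact hx
  obtain ⟨d, hdD, t, ht, hdt⟩ := hD _ hy
  refine ⟨L0 d, Finset.mem_image_of_mem _ hdD, t, ht, ?_⟩
  rw [hK'int, Set.mem_preimage, hL, map_add, ← add_assoc, ← hL, L.apply_symm_apply,
    map_smul] at hdt
  exact hdt

end Pool.Agent.H772.HTTRA
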