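import Pool.Agent.H85.AK.Stmt3

/-!
Proof of `S_box` (sets with few sums, almost invariant under a box of scalars) from the five named
hypotheses.
-/

set_option autoImplicit false

namespace Pool.Agent.H85.AK.Box772

open scoped Pointwise
open Finset Stmt3

theorem mem_dg {k : ℕ} (g : Fin k → ℂ) (D n : ℕ) (x : ℂ) : x ∈ dg g D n ↔
    ∃ d : (Fin k → Fin n) → Fin D,
      ∑ a : Fin k → Fin n, ((d a : ℕ) : ℂ) * ∏ i, g i ^ (a i : ℕ) = x := by
  simp only [dg, Finset.mem_image, Finset.mem_univ, true_and]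

theorem mem_orb {k : ℕ} (g : Fin k → ℂ) (S : Finset ℂ) (m : ℕ) (x : ℂ) : x ∈ orb g S m ↔
    ∃ b : Fin k → Fin m, ∃ z ∈ S, (∏ i, g i ^ (b i : ℕ)) * z = x := by
  simp only [orb, Finset.mem_biUnion, Finset.mem_image, Finset.mem_univ, true_and]

theorem orb_dg_subset {k : ℕ} (g : Fin k → ℂ) (D n m : ℕ) (hD : 1 ≤ D) :
    orb g (dg g D n) m ⊆ dg g D (n + m) := by
  classical
  intro x hx
  rw [mem_orb] at hx
  obtain ⟨b, z, hz, rfl⟩ := hx
  rw [mem_dg] at hz
  obtain ⟨d, rfl⟩ := hz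
  rw [mem_dg]
  let e : (Fin k → Fin n) → (Fin k → Fin (n + m)) := fun a i =>
    ⟨(a i : ℕ) + (b i : ℕ), Nat.add_lt_add (a i).2 (b i).2⟩
  have he : Function.Injective e := by
    intro a a' h
    funext i
    have h1 := congrFun h i
    have h2 := congrArg Fin.val h1
    have h3 : (a i : ℕ) + (b i : ℕ) = (a' i : ℕ) + (b i : ℕ) := h2
    exact Fin.ext (by omega)
  let d' : (Fin k → Fin (n + m)) → Fin D := fun a' =>
    if h : ∃ a, e a = a' then d h.choose else ⟨0, hD⟩
  have hd' : ∀ a, d' (e a) = d a := by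
    intro a
    have h : ∃ a₀, e a₀ = e a := ⟨a, rfl⟩
    simp only [d', dif_pos h]
    rw [he h.choose_spec]
  refine ⟨d', ?_⟩
  symm
  rw [Finset.mul_sum]
  apply Fintype.sum_of_injective e he
  · intro a' ha'
    have h : ¬ ∃ a, e a = a' := fun ⟨a, ha⟩ => ha' ⟨a, ha⟩
    simp only [d', dif_neg h, Nat.cast_zero, zero_mul]
  · intro a
    rw [hd']
    have h1 : ∏ i, g i ^ ((e a i : Fin (n + m)) : ℕ) =
        (∏ i, g i ^ (a i : ℕ)) * ∏ i, g i ^ (b i : ℕ) := by
      rw [← Finset.prod_mul_distrib]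
      apply Finset.prod_congr rfl
      intro i _
      rw [← pow_add]
    rw [h1]
    ring

theorem dg_add_subset {k : ℕ} (g : Fin k → ℂ) (D n : ℕ) :
    dg g D n + dg g D n ⊆ dg g (D * 2) n := by
  intro x hx
  rw [Finset.mem_add] at hx
  obtain ⟨y, hy, z, hz, rfl⟩ := hx
  rw [mem_dg] at hy hz
  obtain ⟨d, rfl⟩ := hy
  obtain ⟨d', rfl⟩ := hz
  rw [mem_dg]
  refine ⟨fun a => ⟨(d a : ℕ) + (d' a : ℕ), ?_⟩, ?_⟩
  · have h1 := (d a).2
    have h2 := (d' a).2
    omega
  · rw [← Finset.sum_add_distrib]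
    apply Finset.sum_congr rfl
    intro a _
    simp only [Nat.cast_add]
    ring

theorem subset_orb {k : ℕ} (g : Fin k → ℂ) (S : Finset ℂ) (m : ℕ) (hm : 0 < m) :
    S ⊆ orb g S m := by
  intro z hz
  rw [mem_orb]
  refine ⟨fun _ => ⟨0, hm⟩, z, hz, ?_⟩
  simp

end Pool.Agent.H85.AK.Box772

namespace Pool.Agent.H85.AK

open scoped Pointwise
open Finset Stmt3 Box772

theorem s_box (h1 : Stmt3.S_up) (h2 : Stmt3.S_low) (h3 : Stmt3.S_pigeon) (h4 : Stmt3.S_orb)
    (h5 : Stmt.S_growth) : Stmt3.S_box := by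
  intro k g hg halg ⟨j, hj⟩ ε hε
  obtain ⟨C, hC, hup⟩ := h1 k g halg
  obtain ⟨c, hc, hlow⟩ := h2 k g j (h5 (g j) (hg j) hj)
  have hη : 0 < min ε 1 := lt_min hε one_pos
  obtain ⟨K0, hK0⟩ := h3 (fun κ n => Real.log ((dg g (2 ^ κ) n).card : ℝ)) c C (min ε 1) hc hη
    (min_le_right _ _) (by
      intro κ n hκ hn
      have h2κ : 2 ≤ 2 ^ κ := by
        calc 2 = 2 ^ 1 := rfl
          _ ≤ 2 ^ κ := Nat.pow_le_pow_right (by norm_num) hκ
      refine ⟨hlow _ _ h2κ hn, (hup _ _ (by omega) hn).trans ?_⟩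
      apply mul_le_mul_of_nonneg_left _ hC.le
      rw [Nat.cast_pow, Real.log_pow, Nat.cast_ofNat]
      have hl : Real.log 2 ≤ 1 := by
        have := Real.log_two_lt_d9
        linarith
      have hκ' : (0 : ℝ) ≤ κ := Nat.cast_nonneg _
      nlinarith)
  set η := min ε 1 with hηdef
  have hK0' : (0 : ℝ) ≤ K0 := Nat.cast_nonneg _
  refine ⟨η / (8 * C * (2 + K0)), by positivity, ?_⟩
  intro N
  obtain ⟨κ, n, m, hκ1, hκK, hNn, hm1, hmn, hηm, hu⟩ := hK0 (⌈(N : ℝ) / c⌉₊ + 1)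
  have hn1 : 1 ≤ n := by omega
  have h2κ : 2 ≤ 2 ^ κ := by
    calc 2 = 2 ^ 1 := rfl
      _ ≤ 2 ^ κ := Nat.pow_le_pow_right (by norm_num) hκ1
  set A := orb g (dg g (2 ^ κ) n) m with hA
  have hsub1 : dg g (2 ^ κ) n ⊆ A := subset_orb g _ m hm1
  have hsub2 : A ⊆ dg g (2 ^ κ) (n + m) := orb_dg_subset g _ n m (by omega)
  have hsub3 : A + A ⊆ dg g (2 ^ (κ + 1)) (n + m) := by
    rw [pow_succ]
    exact (Finset.add_subset_add hsub2 hsub2).trans (dg_add_subset g _ _)
  have hne : (dg g (2 ^ κ) n).Nonempty := by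
    refine ⟨0, ?_⟩
    rw [mem_dg]
    refine ⟨fun _ => ⟨0, by omega⟩, ?_⟩
    simp
  have hc1 : (0 : ℝ) < (dg g (2 ^ κ) n).card := by exact_mod_cast hne.card_pos
  have hcA : ((dg g (2 ^ κ) n).card : ℝ) ≤ A.card := by exact_mod_cast Finset.card_le_card hsub1
  have hA1 : (1 : ℝ) ≤ A.card := by
    have : 1 ≤ A.card := (hne.mono hsub1).card_pos
    exact_mod_cast this
  have hcA2 : (A.card : ℝ) ≤ (dg g (2 ^ κ) (n + m)).card := by
    exact_mod_cast Finset.card_le_card hsub2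
  have hcAA : ((A + A).card : ℝ) ≤ (dg g (2 ^ (κ + 1)) (n + m)).card := by
    exact_mod_cast Finset.card_le_card hsub3
  have hn0 : (1 : ℝ) ≤ n := by exact_mod_cast hn1
  refine ⟨A, ?_, ?_, ?_⟩
  · have h6 := hlow _ n h2κ hn1
    have h7 : c * n < (dg g (2 ^ κ) n).card := by
      have := Real.add_one_le_exp (c * (n : ℝ))
      have h8 : Real.exp (c * n) ≤ (dg g (2 ^ κ) n).card := by
        rw [← Real.exp_log hc1]
        exact Real.exp_le_exp.2 h6
      linarith
    have h9 : (N : ℝ) / c ≤ n := by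
      have h10 := Nat.le_ceil ((N : ℝ) / c)
      have h11 : ((⌈(N : ℝ) / c⌉₊ : ℕ) : ℝ) ≤ n := by
        exact_mod_cast (show ⌈(N : ℝ) / c⌉₊ ≤ n by omega)
      linarith
    rw [div_le_iff₀ hc] at h9
    have h12 : (N : ℝ) ≤ A.card := by
      have : (n : ℝ) * c = c * n := mul_comm _ _
      linarith
    exact_mod_cast h12
  · have hpos : (0 : ℝ) < (dg g (2 ^ (κ + 1)) (n + m)).card := by
      have h13 : (0 : ℝ) < (A + A).card := by
        have : 0 < (A + A).card := by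
          rw [Finset.card_pos]
          exact (hne.mono hsub1).add (hne.mono hsub1)
        exact_mod_cast this
      linarith
    calc ((A + A).card : ℝ) ≤ (dg g (2 ^ (κ + 1)) (n + m)).card := hcAA
      _ = Real.exp (Real.log ((dg g (2 ^ (κ + 1)) (n + m)).card : ℝ)) := (Real.exp_log hpos).symm
      _ ≤ Real.exp ((1 + η) * Real.log ((dg g (2 ^ κ) n).card : ℝ)) := Real.exp_le_exp.2 hu
      _ = ((dg g (2 ^ κ) n).card : ℝ) ^ (1 + η) := by
        rw [Real.rpow_def_of_pos hc1, mul_comm]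
      _ ≤ (A.card : ℝ) ^ (1 + η) := Real.rpow_le_rpow hc1.le hcA (by positivity)
      _ ≤ (A.card : ℝ) ^ (1 + ε) := by
        apply Real.rpow_le_rpow_of_exponent_le hA1
        have := min_le_left ε 1
        linarith
  · intro a ha
    have hlogA : Real.log (A.card : ℝ) ≤ C * (2 + K0) * n := by
      have h14 : Real.log (A.card : ℝ) ≤ Real.log ((dg g (2 ^ κ) (n + m)).card : ℝ) :=
        Real.log_le_log (by linarith) hcA2
      have h15 := hup (2 ^ κ) (n + m) (by omega) (by omega)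
      rw [Nat.cast_pow, Real.log_pow, Nat.cast_ofNat, Nat.cast_add] at h15
      have hl : Real.log 2 ≤ 1 := by
        have := Real.log_two_lt_d9
        linarith
      have hκ' : (0 : ℝ) ≤ κ := Nat.cast_nonneg _
      have hκ2 : (κ : ℝ) ≤ K0 := by exact_mod_cast hκK
      have hmn' : (m : ℝ) ≤ n := by exact_mod_cast hmn
      have h16 : (n : ℝ) + m + κ * Real.log 2 ≤ (2 + K0) * n := by
        have h17 : (κ : ℝ) * Real.log 2 ≤ K0 := by nlinarith
        have h18 : (K0 : ℝ) ≤ K0 * n := by nlinarith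
        linarith
      have h19 := mul_le_mul_of_nonneg_left h16 hC.le
      linarith
    have hsum : ((∑ i, a i : ℕ) : ℝ) ≤ m / 2 := by
      have h20 : η / (8 * C * (2 + K0)) * Real.log A.card ≤
          η / (8 * C * (2 + K0)) * (C * (2 + K0) * n) :=
        mul_le_mul_of_nonneg_left hlogA (by positivity)
      have h21 : η / (8 * C * (2 + K0)) * (C * (2 + K0) * n) = η / 4 * n / 2 := by
        field_simp
        ring
      linarith
    have hsum' : 2 * (∑ i, a i) ≤ m := by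
      have : (2 : ℝ) * ((∑ i, a i : ℕ) : ℝ) ≤ m := by linarith
      exact_mod_cast this
    have horb := h4 k g (dg g (2 ^ κ) n) m hg hm1 a
    rw [← hA] at horb
    have hcard := Finset.card_filter_add_card_filter_not (s := A)
      (fun z => (∏ i, g i ^ a i) * z ∈ A)
    have h22 : 2 * (A.filter fun z => (∏ i, g i ^ a i) * z ∉ A).card ≤ A.card := by
      have h23 : m * (2 * (A.filter fun z => (∏ i, g i ^ a i) * z ∉ A).card) ≤ m * A.card := by
        calc m * (2 * (A.filter fun z => (∏ i, g i ^ a i) * z ∉ A).card)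
            = 2 * (m * (A.filter fun z => (∏ i, g i ^ a i) * z ∉ A).card) := by ring
          _ ≤ 2 * ((∑ i, a i) * A.card) := Nat.mul_le_mul_left _ horb
          _ = (2 * (∑ i, a i)) * A.card := by ring
          _ ≤ m * A.card := Nat.mul_le_mul_right _ hsum'
      exact Nat.le_of_mul_le_mul_left h23 hm1
    omega

end Pool.Agent.H85.AK
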