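import Mathlib
import Pool.Agent.H546.APStm
import Pool.Graph.R_pool_sql_team_seeded_620a6dc7.helper484_domb_.Morley

/-!
# AP11: Morley's congruence modulo `p ^ 2`
-/

set_option autoImplicit false

namespace Pool.Agent.H772.AP11

open Pool.Agent.H546.AP
open Pool.Agent.Q267.CDE (R)

theorem h_S_mor : S_mor := by
  intro p hp h3
  have hp' : p.Prime := hp.out
  have hodd : p % 2 = 1 := hp'.eq_two_or_odd.resolve_left (by omega)
  obtain ⟨n, hn⟩ : ∃ n, p = 2 * n + 1 := ⟨p / 2, by omega⟩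
  have hn' : (p - 1) / 2 = n := by omega
  have hn2 : p - 1 = 2 * n := by omega
  have h1 := (Pool.Agent.Helper484_Domb.harm_main hp' h3 hn ((4 : ZMod (p ^ 3)) ^ n - 1)
    (by ring)).2.1
  have h2 := congrArg (ZMod.castHom (pow_dvd_pow p (by norm_num : 2 ≤ 3)) (ZMod (p ^ 2))) h1
  simp only [map_mul, map_pow, map_neg, map_one, map_add, map_sub, map_natCast, map_ofNat] at h2
  rw [hn', hn2]
  have h4 : ((n.centralBinom : ℕ) : ZMod (p ^ 2)) = (-1) ^ n * 4 ^ (2 * n) := by
    rw [h2, add_sub_cancel, ← pow_mul, mul_comm n 2]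
  exact h4

end Pool.Agent.H772.AP11
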