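import Mathlib
import Pool.Agent.H576.RD.Stm

/-!
# RD T9: averages over irreducible groups (first and second moment)
-/

set_option autoImplicit false

open Module

namespace Pool.Agent.H772

open Pool.Agent.H576.RD

section

variable (G : Subgroup LI) [Fintype G]

/-- Sum of an orbit. -/
noncomputable def orbSum (b : E) : E := ∑ g : G, (g : LI) b

theorem orbSum_inv (b : E) (h : LI) (hh : h ∈ G) : h (orbSum G b) = orbSum G b := by
  unfold orbSum
  rw [map_sum]
  exact Fintype.sum_equiv (Equiv.mulLeft (⟨h, hh⟩ : G)) _ _ (fun g => rfl)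

theorem orbSum_eq_zero (hI : Irr G) (b : E) : orbSum G b = 0 := by
  by_contra h0
  obtain ⟨g, hg, h1, _⟩ := hI _ h0
  exact h1 (orbSum_inv G b g hg)

/-- The second moment operator. -/
noncomputable def secOp (b : E) : E →ₗ[ℝ] E :=
  ∑ g : G, (innerₛₗ ℝ ((g : LI) b)).smulRight ((g : LI) b)

theorem secOp_apply (b v : E) :
    secOp G b v = ∑ g : G, (inner ℝ ((g : LI) b) v) • ((g : LI) b) := by
  unfold secOp
  rw [LinearMap.sum_apply]
  rfl

theorem secOp_inner (b v w : E) :
    inner ℝ (secOp G b v) w = ∑ g : G, (inner ℝ ((g : LI) b) v) * (inner ℝ ((g : LI) b) w) := by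
  rw [secOp_apply, sum_inner]
  refine Finset.sum_congr rfl fun g _ => ?_
  rw [real_inner_smul_left]

theorem secOp_sym (b : E) : (secOp G b).IsSymmetric := by
  intro v w
  rw [secOp_inner, real_inner_comm, secOp_inner]
  exact Finset.sum_congr rfl fun g _ => mul_comm _ _

theorem secOp_comm (b : E) (h : LI) (hh : h ∈ G) (v : E) :
    secOp G b (h v) = h (secOp G b v) := by
  rw [secOp_apply, secOp_apply, map_sum]
  symm
  refine Fintype.sum_equiv (Equiv.mulLeft (⟨h, hh⟩ : G)) _ _ (fun g => ?_)
  have h1 : ((Equiv.mulLeft (⟨h, hh⟩ : G) g : G) : LI) b = h ((g : LI) b) := rfl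
  rw [h1, LinearIsometryEquiv.inner_map_map, map_smul]

theorem finrank_E : finrank ℝ E = 3 := by simp

end

/-- Three real numbers which are not all equal: one of them is simple. -/
theorem exists_simple (l : Fin 3 → ℝ) (h : ¬ (l 0 = l 1 ∧ l 1 = l 2)) :
    ∃ i, ∀ j, j ≠ i → l j ≠ l i := by
  by_cases h01 : l 0 = l 1
  · have h12 : l 1 ≠ l 2 := fun h2 => h ⟨h01, h2⟩
    refine ⟨2, fun j hj => ?_⟩
    fin_cases j
    · simpa [h01] using h12
    · simpa using h12
    · exact absurd rfl hj
  · by_cases h12 : l 1 = l 2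
    · refine ⟨0, fun j hj => ?_⟩
      fin_cases j
      · exact absurd rfl hj
      · simpa using fun h => h01 h.symm
      · simpa [← h12] using fun h => h01 h.symm
    · by_cases h02 : l 0 = l 2
      · refine ⟨1, fun j hj => ?_⟩
        fin_cases j
        · simpa using h01
        · exact absurd rfl hj
        · simpa using fun h => h12 h.symm
      · refine ⟨0, fun j hj => ?_⟩
        fin_cases j
        · exact absurd rfl hj
        · simpa using fun h => h01 h.symm
        · simpa using fun h => h02 h.symm

theorem secOp_scalar (G : Subgroup LI) [Fintype G] (hI : Irr G) (b : E) (hb : ‖b‖ = 1) (u : E)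
    (hu : ‖u‖ = 1) :
    ∑ g : G, (inner ℝ u ((g : LI) b)) ^ 2 = (Fintype.card G : ℝ) / 3 := by
  have hs := secOp_sym G b
  set B := hs.eigenvectorBasis finrank_E with hB
  set l := hs.eigenvalues finrank_E with hl
  have hT : ∀ i, secOp G b (B i) = l i • B i := by
    intro i
    have h := hs.apply_eigenvectorBasis finrank_E i
    exact h
  have hall : l 0 = l 1 ∧ l 1 = l 2 := by
    by_contra hne
    obtain ⟨i, hi⟩ := exists_simple l hne
    have hBn : B i ≠ 0 := by
      intro h0
      have := B.orthonormal.1 i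
      rw [h0, norm_zero] at this
      exact zero_ne_one this
    obtain ⟨g, hg, h1, h2⟩ := hI (B i) hBn
    have key : ∀ j, j ≠ i → inner ℝ (B j) (g (B i)) = 0 := by
      intro j hj
      have e1 : inner ℝ (secOp G b (B j)) (g (B i)) = inner ℝ (B j) (secOp G b (g (B i))) :=
        hs _ _
      rw [secOp_comm G b g hg, hT, hT, map_smul, real_inner_smul_left, real_inner_smul_right] at e1
      have e2 : (l j - l i) * inner ℝ (B j) (g (B i)) = 0 := by linarith
      rcases mul_eq_zero.mp e2 with h | h
      · exact absurd (sub_eq_zero.mp h) (hi j hj)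
      · exact h
    have hexp : g (B i) = (inner ℝ (B i) (g (B i)) : ℝ) • B i := by
      have e3 := (B.sum_repr' (g (B i))).symm
      rw [Finset.sum_eq_single i] at e3
      · exact e3
      · intro j _ hj
        rw [key j hj, zero_smul]
      · intro h
        exact absurd (Finset.mem_univ i) h
    have hn : ‖g (B i)‖ = 1 := by
      rw [LinearIsometryEquiv.norm_map]
      exact B.orthonormal.1 i
    have hn2 : |(inner ℝ (B i) (g (B i)) : ℝ)| = 1 := by
      rw [hexp, norm_smul, B.orthonormal.1 i, mul_one, Real.norm_eq_abs] at hn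
      exact hn
    rcases (abs_eq (zero_le_one' ℝ)).mp hn2 with h | h
    · rw [h, one_smul] at hexp
      exact h1 hexp
    · rw [h, neg_smul, one_smul] at hexp
      exact h2 hexp
  have hli : ∀ i, l i = l 0 := by
    intro i
    fin_cases i
    · rfl
    · exact hall.1.symm
    · exact (hall.1.trans hall.2).symm
  have hQ : ∀ v : E, inner ℝ (secOp G b v) v = l 0 * ‖v‖ ^ 2 := by
    intro v
    have e1 : secOp G b v = l 0 • v := by
      conv_lhs => rw [← B.sum_repr' v]
      rw [map_sum]
      conv_rhs => rw [← B.sum_repr' v]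
      rw [Finset.smul_sum]
      refine Finset.sum_congr rfl fun i _ => ?_
      rw [map_smul, hT, hli i, smul_comm]
    rw [e1, real_inner_smul_left, real_inner_self_eq_norm_sq]
  have htr : ∑ i, inner ℝ (secOp G b (B i)) (B i) = (Fintype.card G : ℝ) := by
    have e1 : ∀ i, inner ℝ (secOp G b (B i)) (B i)
        = ∑ g : G, (inner ℝ ((g : LI) b) (B i)) ^ 2 := by
      intro i
      rw [secOp_inner]
      exact Finset.sum_congr rfl fun g _ => (sq _).symm
    simp only [e1]
    rw [Finset.sum_comm]
    have e2 : ∀ g : G, ∑ i, (inner ℝ ((g : LI) b) (B i)) ^ 2 = 1 := by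
      intro g
      have e3 := B.sum_sq_inner_left ((g : LI) b)
      rw [LinearIsometryEquiv.norm_map, hb, one_pow] at e3
      exact e3
    simp only [e2]
    simp
  have hl0 : l 0 = (Fintype.card G : ℝ) / 3 := by
    have e1 : ∀ i, inner ℝ (secOp G b (B i)) (B i) = l 0 := by
      intro i
      rw [hQ, B.orthonormal.1 i, one_pow, mul_one]
    rw [Finset.sum_congr rfl fun i _ => e1 i] at htr
    simp at htr
    linarith
  have h5 := hQ u
  rw [secOp_inner, hu, one_pow, mul_one, hl0] at h5
  rw [← h5]
  refine Finset.sum_congr rfl fun g _ => ?_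
  rw [real_inner_comm, sq]

theorem rd_t9 : S_T9 := by
  intro G hG hI u b hu hb
  have : Finite G := hG
  have : Fintype G := Fintype.ofFinite G
  have h2 := secOp_scalar G hI b hb u hu
  have h1 : ∑ g : G, (inner ℝ u ((g : LI) b)) = 0 := by
    rw [← inner_sum]
    have := orbSum_eq_zero G hI b
    unfold orbSum at this
    rw [this, inner_zero_right]
  have hc : (0 : ℝ) < Fintype.card G := by
    have : 0 < Fintype.card G := Fintype.card_pos
    exact_mod_cast this
  constructor
  · by_contra hcon
    push Not at hcon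
    have hlt : ∀ g : G, (inner ℝ u ((g : LI) b)) < 1 / 3 := fun g => hcon g g.2
    have hge : ∀ g : G, -1 ≤ (inner ℝ u ((g : LI) b)) := by
      intro g
      have e1 := abs_real_inner_le_norm u ((g : LI) b)
      rw [LinearIsometryEquiv.norm_map, hu, hb, mul_one] at e1
      exact (abs_le.mp e1).1
    have hsum : ∑ g : G, ((inner ℝ u ((g : LI) b) + 1) * (inner ℝ u ((g : LI) b) - 1 / 3)) = 0 := by
      have e1 : ∀ g : G, ((inner ℝ u ((g : LI) b) + 1) * (inner ℝ u ((g : LI) b) - 1 / 3))
          = (inner ℝ u ((g : LI) b)) ^ 2 + (2 / 3) * (inner ℝ u ((g : LI) b)) - 1 / 3 := by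
        intro g; ring
      simp only [e1]
      rw [Finset.sum_sub_distrib, Finset.sum_add_distrib, ← Finset.mul_sum, h1, h2]
      simp
      ring
    have hle : ∀ g ∈ (Finset.univ : Finset G),
        ((inner ℝ u ((g : LI) b) + 1) * (inner ℝ u ((g : LI) b) - 1 / 3)) ≤ 0 := by
      intro g _
      have := hlt g
      have := hge g
      nlinarith
    have hz := (Finset.sum_eq_zero_iff_of_nonpos hle).mp hsum
    have hm1 : ∀ g : G, (inner ℝ u ((g : LI) b)) = -1 := by
      intro g
      have e1 := hz g (Finset.mem_univ g)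
      rcases mul_eq_zero.mp e1 with h | h
      · linarith
      · have := hlt g
        linarith
    simp only [hm1] at h1
    simp at h1
  · by_contra hcon
    push Not at hcon
    have hlt : ∀ g ∈ (Finset.univ : Finset G), (inner ℝ u ((g : LI) b)) ^ 2 < 1 / 3 :=
      fun g _ => hcon g g.2
    have := Finset.sum_lt_sum_of_nonempty (Finset.univ_nonempty (α := G)) hlt
    rw [h2] at this
    simp at this
    linarith

end Pool.Agent.H772
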