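import Pool.Agent.H683.CV.PLem

/-!
# Project CV: the greedy set is computed in polynomial time
-/

set_option autoImplicit false

namespace Pool.Agent.NPC.H772CVPGS

open Pool.Agent.NPC Pool.Agent.H633R2 Pool.Agent.H683.CV

variable {α : Type} [TEnc α]

theorem poly_entry {M : α → List (List Bool)} {i j : α → ℕ} (hM : Poly M)
    (hi : Poly i) (hj : Poly j) : Poly (fun a => entry (M a) (i a) (j a)) :=
  Poly.getD (Poly.getD hM hi (Poly.const [])) hj (Poly.const false)

theorem poly_adj {M : α → List (List Bool)} {u v : α → ℕ} (hM : Poly M)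
    (hu : Poly u) (hv : Poly v) : Poly (fun a => adj (M a) (u a) (v a)) := by
  unfold adj
  exact Poly.and (Poly.decide_not (Poly.decide_eq hu hv))
    (Poly.or (poly_entry hM hu hv) (poly_entry hM hv hu))

theorem poly_nin {S : α → List ℕ} {u : α → ℕ} (hS : Poly S) (hu : Poly u) :
    Poly (fun a => nin (S a) (u a)) := by
  unfold nin
  exact Poly.all (l := S) (p := fun a s => !decide (s = u a)) hS
    (Poly.not (Poly.decide_eq (Poly.snd Poly.id) (hu.comp (Poly.fst Poly.id))))

theorem poly_badT {M : α → List (List Bool)} {S : α → List ℕ} {t : α → ℕ × ℕ × ℕ} (hM : Poly M)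
    (hS : Poly S) (ht : Poly t) : Poly (fun a => badT (M a) (S a) (t a)) := by
  unfold badT
  have h1 : Poly (fun a => (t a).1) := Poly.fst ht
  have h2 : Poly (fun a => (t a).2.1) := Poly.fst (Poly.snd ht)
  have h3 : Poly (fun a => (t a).2.2) := Poly.snd (Poly.snd ht)
  exact Poly.and (Poly.and (Poly.and (Poly.and (Poly.and (Poly.and (poly_nin hS h1)
    (poly_nin hS h2)) (poly_nin hS h3)) (poly_adj hM h1 h2)) (poly_adj hM h2 h3))
    (Poly.decide_not (Poly.decide_eq h1 h3))) (Poly.not (poly_adj hM h1 h3))

theorem poly_triples {n : α → ℕ} (hn : UPoly n) : Poly (fun a => triples (n a)) := by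
  unfold triples
  refine Poly.flatMap (l := fun a => List.range (n a)) (F := fun a x =>
    (List.range (n a)).flatMap fun y => (List.range (n a)).map fun z => (x, y, z))
    (UPoly.range hn) ?_
  have hn1 : UPoly (fun p : α × ℕ => n p.1) := hn.comp (Poly.fst Poly.id)
  refine Poly.flatMap (l := fun p : α × ℕ => List.range (n p.1)) (F := fun p y =>
    (List.range (n p.1)).map fun z => (p.2, y, z)) (UPoly.range hn1) ?_
  have hn2 : UPoly (fun p : (α × ℕ) × ℕ => n p.1.1) := hn1.comp (Poly.fst Poly.id)
  refine Poly.map (l := fun p : (α × ℕ) × ℕ => List.range (n p.1.1)) (F := fun p z =>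
    (p.1.2, p.2, z)) (UPoly.range hn2) ?_
  exact Poly.pair (Poly.snd (Poly.fst (Poly.fst Poly.id)))
    (Poly.pair (Poly.snd (Poly.fst Poly.id)) (Poly.snd Poly.id))

theorem gstep_eq (M : List (List Bool)) (S : List ℕ) : gstep M S =
    match ((triples M.length).filter (badT M S)).head? with
    | none => S
    | some t => t.1 :: t.2.1 :: t.2.2 :: S := by
  unfold gstep
  rw [List.head?_filter]
  cases (triples M.length).find? (badT M S) <;> rfl

theorem poly_gstep {M : α → List (List Bool)} {S : α → List ℕ} (hM : Poly M) (hS : Poly S) :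
    Poly (fun a => gstep (M a) (S a)) := by
  refine (Poly.optCases (o := fun a => ((triples (M a).length).filter (badT (M a) (S a))).head?)
    (g := S) (h := fun a t => t.1 :: t.2.1 :: t.2.2 :: S a) ?_ hS ?_).congr ?_
  · refine Poly.head? (Poly.filter (l := fun a => triples (M a).length)
      (p := fun a t => badT (M a) (S a) t) (poly_triples (UPoly.length hM)) ?_)
    exact poly_badT (hM.comp (Poly.fst Poly.id)) (hS.comp (Poly.fst Poly.id)) (Poly.snd Poly.id)
  · exact Poly.cons (Poly.fst (Poly.snd Poly.id)) (Poly.cons (Poly.fst (Poly.snd (Poly.snd Poly.id)))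
      (Poly.cons (Poly.snd (Poly.snd (Poly.snd Poly.id))) (hS.comp (Poly.fst Poly.id))))
  · intro a
    rw [gstep_eq]
    cases ((triples (M a).length).filter (badT (M a) (S a))).head? <;> rfl

theorem bound (M : List (List Bool)) (j : ℕ) : ((gstep M)^[j] []).length ≤ 3 * j ∧
    ∀ x ∈ (gstep M)^[j] [], x < M.length := by
  induction j with
  | zero => simp
  | succ j ih =>
    rw [Function.iterate_succ_apply']
    generalize (gstep M)^[j] [] = S at ih
    obtain ⟨h1, h2⟩ := ih
    unfold gstep
    split
    · next t ht =>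
      have h3 := List.mem_of_find?_eq_some ht
      unfold triples at h3
      simp only [List.mem_flatMap, List.mem_map, List.mem_range] at h3
      obtain ⟨a, ha, b, hb, c, hc, rfl⟩ := h3
      refine ⟨by simp only [List.length_cons]; omega, fun x hx => ?_⟩
      simp only [List.mem_cons] at hx
      rcases hx with rfl | rfl | rfl | hx
      · exact ha
      · exact hb
      · exact hc
      · exact h2 x hx
    · exact ⟨by omega, h2⟩

theorem poly_gS : Poly (fun M : List (List Bool) => gS M) := by
  refine Poly.iterLen (l := fun M : List (List Bool) => M) (s := fun _ => ([] : List ℕ))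
    (F := fun M S => gstep M S) Poly.id (Poly.const [])
    (poly_gstep (Poly.fst Poly.id) (Poly.snd Poly.id))
    (Polynomial.C 3 * Polynomial.X * (Polynomial.C 4 * Polynomial.X + 2) + 1) ?_
  intro M j hj
  obtain ⟨h1, h2⟩ := bound M j
  have h4 := length_lt_sz M
  have h3 := sz_le_length_mul ((gstep M)^[j] []) (4 * sz M + 1) (by
    intro x hx
    have h := h2 x hx
    have a1 := sz_nat_le x
    have a2 := Poly.size_le_self x
    omega)
  simp only [Polynomial.eval_add, Polynomial.eval_mul, Polynomial.eval_C,
    Polynomial.eval_X, Polynomial.eval_one, Polynomial.eval_ofNat]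
  refine h3.trans (Nat.add_le_add_right (Nat.mul_le_mul ?_ ?_) 1)
  · have hj' : j ≤ M.length := hj
    omega
  · omega

theorem PGS : Pool.Agent.H683.CV.S_PGS := by
  intro α _ M hM
  exact poly_gS.comp hM

end Pool.Agent.NPC.H772CVPGS
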