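import Pool.Agent.H770.GS.TD
import Pool.Agent.H770.GS.TA1
import Pool.Agent.H331.GSgauss
import Pool.Agent.H385.GSrepr
import Pool.Agent.H154.GSn3reg

/-!
# Project TD, subtask TD4: the smoothed kernel of the triple `{z, x, x}` with `x ≤ z ≤ √3 x`, `r ≤ 1`
-/

set_option autoImplicit false

open MeasureTheory Set intervalIntegral

namespace Pool.Agent.H772.TDtriple2

open Pool.Agent.Helper82.GC
open Pool.Agent.H770.GS

theorem one (h3 : ∀ r c : ℝ, 0 < r → r ≤ 1 → 1 ≤ c → c ^ 2 ≤ 3 → P 0 (n3 r c))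
    {r c τ : ℝ} (hr : 0 < r) (hr3 : r ≤ 1) (hc1 : 1 ≤ c) (hc2 : c ^ 2 ≤ 3) (hτ : 0 < τ) :
    P 0 (cv r c (cv r 1 (cv r 1 (kg τ)))) := by
  have hc : 0 < c := lt_of_lt_of_le one_pos hc1
  obtain ⟨C, hC⟩ := (Pool.Agent.H154.TA.t_n3reg r c hr hc).2.2
  have h := Pool.Agent.H331.TA.gauss (n3 r c) C (h3 r c hr hr3 hc1 hc2) hC τ hτ
  have e : cv r c (cv r 1 (cv r 1 (kg τ))) = fun v => ∫ u, gs τ u * n3 r c (v + u) := by
    ext v
    exact Pool.Agent.H385.GSrepr.repr r c τ hr hc hτ v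
  rw [e]
  exact h

/-- **TD4** -/
theorem triple2 : S_triple2 := by
  intro h3 r x z τ hr hr3 hx hxz hzx hτ
  have hz : 0 < z := lt_of_lt_of_le hx hxz
  apply P_scale hx
  have e1 : (fun v => cv r z (cv r x (cv r x (kg τ))) (x * v)) =
      fun v => (x ^ 2)⁻¹ * cv r (z / x) (cv r 1 (cv r 1 (kg (τ / x)))) v := by
    have ez : z = x * (z / x) := by field_simp
    have a1 : (fun v => cv r x (kg τ) (x * v)) = fun v => (x ^ 2)⁻¹ * cv r 1 (kg (τ / x)) v := by
      ext v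
      conv_lhs => rw [show cv r x (kg τ) = cv r (x * 1) (kg τ) by rw [mul_one]]
      rw [cv_scale]
      simp only [kg_scale hτ hx]
      rw [cv_smul]
    have a2 : (fun v => cv r x (cv r x (kg τ)) (x * v)) =
        fun v => (x ^ 2)⁻¹ * cv r 1 (cv r 1 (kg (τ / x))) v := by
      ext v
      conv_lhs => rw [show cv r x (cv r x (kg τ)) = cv r (x * 1) (cv r x (kg τ)) by rw [mul_one]]
      rw [cv_scale, a1, cv_smul]
    ext v
    conv_lhs => rw [ez]
    rw [cv_scale, a2, cv_smul]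
  rw [e1]
  apply P_smul (by positivity)
  refine one h3 hr hr3 ?_ ?_ (by positivity)
  · rw [le_div_iff₀ hx]
    linarith
  · rw [div_pow, div_le_iff₀ (by positivity)]
    exact hzx

end Pool.Agent.H772.TDtriple2
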