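import Pool.Agent.H979.FC.Stm

set_option autoImplicit false

/-!
# Tasks KLAW and CLKA: the number of jumps is Poisson
-/

open MeasureTheory ProbabilityTheory Finset
open scoped ENNReal NNReal

namespace Pool.Agent.H772

open Pool.Agent.H979.FR Pool.Agent.H979.FC

namespace FCKLAW

/-- the partial sums -/
def S (n : ℕ) (E : ℕ → ℝ) : ℝ := ∑ j ∈ range n, E j

theorem meas_S (n : ℕ) : Measurable (S n) :=
  Finset.measurable_sum _ fun i _ => measurable_pi_apply i

theorem map_eval (n : ℕ) : clockLaw.map (fun E => E n) = expMeasure 1 :=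
  (measurePreserving_eval_infinitePi (fun _ : ℕ => expMeasure 1) n).map_eq

theorem indep (n : ℕ) : IndepFun (S n) (fun E => E n) clockLaw := by
  have h : iIndepFun (fun (i : ℕ) (ω : ℕ → ℝ) => ω i) clockLaw :=
    iIndepFun_infinitePi (X := fun _ x => x) (fun _ => measurable_id)
  have h2 := h.indepFun_finsetSum_of_notMem (fun i => measurable_pi_apply i) (s := range n)
    (i := n) notMem_range_self
  have h3 : (∑ j ∈ range n, fun ω : ℕ → ℝ => ω j) = S n := by
    funext E
    rw [Finset.sum_apply]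
    rfl
  rw [h3] at h2
  exact h2

theorem recur (n : ℕ) (t : ℝ) : clockLaw {E | S (n + 1) E ≤ t} =
    ∫⁻ s, clockLaw {E | S n E ≤ t - s} ∂(expMeasure 1) := by
  have hmap := (indepFun_iff_map_prod_eq_prod_map_map (meas_S n).aemeasurable
    (measurable_pi_apply n).aemeasurable).1 (indep n)
  rw [map_eval] at hmap
  have hset : MeasurableSet {p : ℝ × ℝ | p.1 + p.2 ≤ t} :=
    measurableSet_le (by fun_prop) measurable_const
  have h1 : clockLaw {E | S (n + 1) E ≤ t} =
      clockLaw.map (fun E => (S n E, E n)) {p | p.1 + p.2 ≤ t} := by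
    rw [Measure.map_apply ((meas_S n).prodMk (measurable_pi_apply n)) hset]
    congr 1
    ext E
    simp only [S, sum_range_succ, Set.mem_ofPred_eq, Set.mem_preimage]
  rw [h1, hmap, Measure.prod_apply_symm hset]
  refine lintegral_congr fun s => ?_
  rw [Measure.map_apply (meas_S n) (measurable_prodMk_right hset)]
  congr 1
  ext E
  simp only [Set.mem_ofPred_eq, Set.mem_preimage, le_sub_iff_add_le]

theorem deriv_F (n : ℕ) (t s : ℝ) :
    HasDerivAt (fun s : ℝ => -Real.exp (-s) +
      Real.exp (-t) * ∑ j ∈ range n, (t - s) ^ (j + 1) / ((j + 1).factorial : ℝ))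
      (Real.exp (-s) - Real.exp (-t) * ∑ j ∈ range n, (t - s) ^ j / (j.factorial : ℝ)) s := by
  have h1 : HasDerivAt (fun s : ℝ => -Real.exp (-s)) (Real.exp (-s)) s := by
    have h0 := (hasDerivAt_neg s).exp
    have h0' : Real.exp (-s) * -1 = -Real.exp (-s) := by ring
    rw [h0'] at h0
    have := h0.neg
    rw [neg_neg] at this
    exact this
  have h2 : HasDerivAt (fun s : ℝ => ∑ j ∈ range n, (t - s) ^ (j + 1) / ((j + 1).factorial : ℝ))
      (∑ j ∈ range n, -((t - s) ^ j / (j.factorial : ℝ))) s := by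
    apply HasDerivAt.fun_sum
    intro j _
    have h3 : HasDerivAt (fun s : ℝ => t - s) (-1) s := by
      simpa using (hasDerivAt_id s).const_sub t
    have h4 := (h3.pow (j + 1)).div_const ((j + 1).factorial : ℝ)
    have h5 : ((j + 1 : ℕ) : ℝ) * (t - s) ^ (j + 1 - 1) * -1 / ((j + 1).factorial : ℝ) =
        -((t - s) ^ j / (j.factorial : ℝ)) := by
      rw [Nat.add_sub_cancel, Nat.factorial_succ, Nat.cast_mul]
      have : ((j + 1 : ℕ) : ℝ) ≠ 0 := by positivity
      have h6 : (j.factorial : ℝ) ≠ 0 := by positivity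
      field_simp
    rw [h5] at h4
    exact h4
  have h7 := h1.add (h2.const_mul (Real.exp (-t)))
  have h8 : Real.exp (-s) + Real.exp (-t) * ∑ j ∈ range n, -((t - s) ^ j / (j.factorial : ℝ)) =
      Real.exp (-s) - Real.exp (-t) * ∑ j ∈ range n, (t - s) ^ j / (j.factorial : ℝ) := by
    rw [Finset.sum_neg_distrib]
    ring
  rw [h8] at h7
  exact h7

theorem sum_q_le (n : ℕ) (t : ℝ) (ht : 0 ≤ t) : ∑ j ∈ range n, q j t ≤ 1 := by
  have h1 : ∑ j ∈ range n, q j t = Real.exp (-t) * ∑ j ∈ range n, t ^ j / (j.factorial : ℝ) := by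
    rw [Finset.mul_sum]
    refine Finset.sum_congr rfl fun j _ => ?_
    rw [q]
    ring
  rw [h1]
  have h2 := Real.sum_le_exp_of_nonneg ht n
  calc Real.exp (-t) * ∑ j ∈ range n, t ^ j / (j.factorial : ℝ) ≤ Real.exp (-t) * Real.exp t :=
        mul_le_mul_of_nonneg_left h2 (Real.exp_pos _).le
    _ = 1 := by rw [← Real.exp_add, neg_add_cancel, Real.exp_zero]

theorem dens (n : ℕ) (t s : ℝ) :
    Real.exp (-s) * (1 - ∑ j ∈ range n, q j (t - s)) =
      Real.exp (-s) - Real.exp (-t) * ∑ j ∈ range n, (t - s) ^ j / (j.factorial : ℝ) := by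
  rw [mul_sub, mul_one, Finset.mul_sum, Finset.mul_sum]
  congr 1
  refine Finset.sum_congr rfl fun j _ => ?_
  rw [q, mul_div_assoc, ← mul_assoc, ← Real.exp_add]
  congr 2
  ring

theorem dist (n : ℕ) : ∀ t : ℝ, clockLaw {E | S n E ≤ t} =
    if 0 ≤ t then ENNReal.ofReal (1 - ∑ j ∈ range n, q j t) else 0 := by
  induction n with
  | zero =>
    intro t
    have h0 : ∀ E : ℕ → ℝ, S 0 E = 0 := fun E => by simp [S]
    simp only [h0]
    split_ifs with ht
    · have : {E : ℕ → ℝ | (0 : ℝ) ≤ t} = Set.univ := by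
        ext E
        simp [ht]
      rw [this, measure_univ]
      simp
    · have : {E : ℕ → ℝ | (0 : ℝ) ≤ t} = ∅ := by
        ext E
        simp [ht]
      rw [this, measure_empty]
  | succ n ih =>
    intro t
    rw [recur]
    have hmeas : Measurable (fun s : ℝ => clockLaw {E | S n E ≤ t - s}) := by
      simp_rw [ih]
      refine Measurable.ite (measurableSet_le measurable_const (by fun_prop)) ?_ measurable_const
      apply ENNReal.measurable_ofReal.comp
      unfold q
      fun_prop
    have h1 : expMeasure 1 = volume.withDensity (exponentialPDF 1) := rfl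
    have hm : Measurable (exponentialPDF 1) := (measurable_exponentialPDFReal 1).ennreal_ofReal
    rw [h1, lintegral_withDensity_eq_lintegral_mul _ hm hmeas]
    have h2 : ∀ s, (exponentialPDF 1 * fun s => clockLaw {E | S n E ≤ t - s}) s =
        (Set.Icc 0 t).indicator (fun s => ENNReal.ofReal (Real.exp (-s) -
          Real.exp (-t) * ∑ j ∈ range n, (t - s) ^ j / (j.factorial : ℝ))) s := by
      intro s
      rw [Pi.mul_apply, ih]
      by_cases hs : s ∈ Set.Icc 0 t
      · rw [Set.indicator_of_mem hs, if_pos (sub_nonneg.2 hs.2), exponentialPDF_of_nonneg hs.1,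
          ← ENNReal.ofReal_mul (by positivity), one_mul, one_mul, dens]
      · rw [Set.indicator_of_notMem hs]
        by_cases h3 : 0 ≤ s
        · have h4 : ¬ 0 ≤ t - s := fun h => hs ⟨h3, sub_nonneg.1 h⟩
          rw [if_neg h4, mul_zero]
        · rw [exponentialPDF_of_neg (not_le.1 h3), zero_mul]
    rw [lintegral_congr h2, lintegral_indicator measurableSet_Icc]
    split_ifs with ht
    · have hcont : Continuous fun s : ℝ => Real.exp (-s) -
          Real.exp (-t) * ∑ j ∈ range n, (t - s) ^ j / (j.factorial : ℝ) := by fun_prop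
      rw [← ofReal_integral_eq_lintegral_ofReal
        (hcont.continuousOn.integrableOn_compact isCompact_Icc)]
      · rw [integral_Icc_eq_integral_Ioc, ← intervalIntegral.integral_of_le ht,
          intervalIntegral.integral_eq_sub_of_hasDerivAt (fun s _ => deriv_F n t s)
            (hcont.intervalIntegrable _ _)]
        congr 1
        rw [Finset.sum_range_succ']
        have h5 : ∑ j ∈ range n, (t - t) ^ (j + 1) / ((j + 1).factorial : ℝ) = 0 := by
          refine Finset.sum_eq_zero fun j _ => ?_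
          rw [sub_self, zero_pow (Nat.succ_ne_zero j), zero_div]
        have h6 : ∑ j ∈ range n, q (j + 1) t =
            Real.exp (-t) * ∑ j ∈ range n, (t - 0) ^ (j + 1) / ((j + 1).factorial : ℝ) := by
          rw [Finset.mul_sum]
          refine Finset.sum_congr rfl fun j _ => ?_
          rw [q, sub_zero]
          ring
        have h7 : q 0 t = Real.exp (-t) := by simp [q]
        rw [h5, h6, h7, neg_zero, Real.exp_zero]
        ring
      · refine (ae_restrict_iff' measurableSet_Icc).2 (Filter.Eventually.of_forall fun s hs => ?_)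
        show 0 ≤ Real.exp (-s) -
          Real.exp (-t) * ∑ j ∈ range n, (t - s) ^ j / (j.factorial : ℝ)
        rw [← dens]
        exact mul_nonneg (Real.exp_pos _).le
          (sub_nonneg.2 (sum_q_le n (t - s) (sub_nonneg.2 hs.2)))
    · rw [Set.Icc_eq_empty ht, setLIntegral_empty]

theorem q_nonneg (k : ℕ) (t : ℝ) (ht : 0 ≤ t) : 0 ≤ q k t := by
  unfold q
  positivity

theorem ae_nonneg : ∀ᵐ E ∂clockLaw, ∀ j, 0 ≤ E j := by
  rw [ae_all_iff]
  intro j
  have h1 : ∀ᵐ s ∂(expMeasure 1), 0 ≤ s := by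
    rw [ae_iff]
    have h2 : {a : ℝ | ¬ 0 ≤ a} = Set.Iio 0 := by
      ext a
      simp
    have h1 : expMeasure 1 = volume.withDensity (exponentialPDF 1) := rfl
    rw [h2, h1, withDensity_apply _ measurableSet_Iio]
    exact lintegral_exponentialPDF_of_nonpos le_rfl
  have h3 := (measurePreserving_eval_infinitePi (fun _ : ℕ => expMeasure 1)
    j).quasiMeasurePreserving.ae h1
  exact h3

theorem mono_S {E : ℕ → ℝ} (hE : ∀ j, 0 ≤ E j) {m n : ℕ} (hmn : m ≤ n) : S m E ≤ S n E :=
  Finset.sum_le_sum_of_subset_of_nonneg (Finset.range_mono hmn) fun j _ _ => hE j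

end FCKLAW

open FCKLAW

theorem fc_klaw : S_KLAW := by
  intro t ht k
  have h1 : ({E | ∀ n : ℕ, ∑ j ∈ range n, E j ≤ t ↔ n ≤ k} : Set (ℕ → ℝ)) =ᵐ[clockLaw]
      ({E | S k E ≤ t} \ {E | S (k + 1) E ≤ t} : Set (ℕ → ℝ)) := by
    filter_upwards [ae_nonneg] with E hE
    apply propext
    constructor
    · intro h
      have h' : ∀ n : ℕ, S n E ≤ t ↔ n ≤ k := h
      exact ⟨(h' k).2 le_rfl, fun h2 => by
        have := (h' (k + 1)).1 h2
        omega⟩
    · rintro ⟨h2, h3⟩ n
      constructor
      · intro h4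
        by_contra h5
        exact h3 ((mono_S hE (by omega : k + 1 ≤ n)).trans h4)
      · intro h4
        exact (mono_S hE h4).trans h2
  have h2 : ({E | S k E ≤ t} ∩ {E | S (k + 1) E ≤ t} : Set (ℕ → ℝ)) =ᵐ[clockLaw]
      ({E | S (k + 1) E ≤ t} : Set (ℕ → ℝ)) := by
    filter_upwards [ae_nonneg] with E hE
    apply propext
    constructor
    · exact fun h => h.2
    · exact fun h => ⟨(mono_S hE (Nat.le_succ k)).trans h, h⟩
  have h3 : MeasurableSet ({E | S (k + 1) E ≤ t} : Set (ℕ → ℝ)) :=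
    measurableSet_le (meas_S _) measurable_const
  have h4 := measure_sdiff_add_inter (μ := clockLaw) {E | S k E ≤ t} h3
  rw [measure_congr h2, dist, dist, if_pos ht, if_pos ht] at h4
  rw [measure_congr h1]
  have h5 : ENNReal.ofReal (1 - ∑ j ∈ range k, q j t) =
      ENNReal.ofReal (q k t) + ENNReal.ofReal (1 - ∑ j ∈ range (k + 1), q j t) := by
    rw [← ENNReal.ofReal_add (q_nonneg k t ht) (sub_nonneg.2 (sum_q_le _ t ht)),
      Finset.sum_range_succ]
    congr 1
    ring
  rw [h5] at h4
  exact (ENNReal.add_left_inj ENNReal.ofReal_ne_top).1 h4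

theorem fc_clka : S_CLKA := by
  intro t ht
  have hmeas : ∀ k : ℕ, MeasurableSet
      ({E | ∀ n : ℕ, ∑ j ∈ range n, E j ≤ t ↔ n ≤ k} : Set (ℕ → ℝ)) := by
    intro k
    have h1 : ({E | ∀ n : ℕ, ∑ j ∈ range n, E j ≤ t ↔ n ≤ k} : Set (ℕ → ℝ)) =
        ⋂ n : ℕ, {E | S n E ≤ t ↔ n ≤ k} := by
      ext E
      simp only [S, Set.mem_iInter, Set.mem_ofPred_eq]
    rw [h1]
    refine MeasurableSet.iInter fun n => ?_
    by_cases hn : n ≤ k
    · simp only [hn, iff_true]
      exact measurableSet_le (meas_S _) measurable_const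
    · simp only [hn, iff_false]
      exact (measurableSet_le (meas_S _) measurable_const).compl
  have hdisj : Pairwise (Function.onFun Disjoint fun k : ℕ =>
      ({E | ∀ n : ℕ, ∑ j ∈ range n, E j ≤ t ↔ n ≤ k} : Set (ℕ → ℝ))) := by
    intro k l hkl
    rw [Function.onFun, Set.disjoint_left]
    intro E h1 h2
    have h3 := ((h2 k).1 ((h1 k).2 le_rfl))
    have h4 := ((h1 l).1 ((h2 l).2 le_rfl))
    exact hkl (le_antisymm h3 h4)
  have hU := measure_iUnion (μ := clockLaw) hdisj hmeas
  have hsum : ∑' k : ℕ, ENNReal.ofReal (q k t) = 1 := by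
    have h1 : HasSum (fun k : ℕ => q k t) 1 := by
      have h2 := (NormedSpace.expSeries_div_hasSum_exp (𝔸 := ℝ) t).mul_left (Real.exp (-t))
      rw [← Real.exp_eq_exp_ℝ, ← Real.exp_add, neg_add_cancel, Real.exp_zero] at h2
      refine h2.congr_fun ?_
      intro k
      rw [q]
      ring
    rw [← ENNReal.ofReal_tsum_of_nonneg (fun k => q_nonneg k t ht) h1.summable, h1.tsum_eq,
      ENNReal.ofReal_one]
  have hP : clockLaw (⋃ k : ℕ, {E | ∀ n : ℕ, ∑ j ∈ range n, E j ≤ t ↔ n ≤ k}) = 1 := by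
    rw [hU, ← hsum]
    exact tsum_congr fun k => fc_klaw t ht k
  have hae := (mem_ae_iff_prob_eq_one (MeasurableSet.iUnion hmeas)).2 hP
  filter_upwards [hae] with E hE
  exact Set.mem_iUnion.1 hE

end Pool.Agent.H772
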