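import Pool.Agent.H979.FR.Stm

/-!
# Task SYM: standard facts on the transition probabilities of the simple random walk
-/

set_option autoImplicit false

namespace Pool.Agent.H772

open Finset Pool.Agent.H979.FR

namespace FRSYM

variable {V : Type} (G : SimpleGraph V) [G.LocallyFinite]

theorem pn_zero (x y : V) [Decidable (x = y)] : pn G 0 x y = if x = y then 1 else 0 := by
  unfold pn
  split_ifs <;> rfl

theorem pn_succ (n : ℕ) (x y : V) :
    pn G (n + 1) x y = (∑ z ∈ G.neighborFinset x, pn G n z y) / G.degree x := by
  rw [pn]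

theorem nonneg (n : ℕ) : ∀ x y, 0 ≤ pn G n x y := by
  classical
  induction n with
  | zero =>
    intro x y
    rw [pn_zero]
    split_ifs <;> norm_num
  | succ n ih =>
    intro x y
    rw [pn_succ]
    exact div_nonneg (Finset.sum_nonneg fun z _ => ih z y) (Nat.cast_nonneg _)

theorem finite (n : ℕ) : ∀ x, {y | pn G n x y ≠ 0}.Finite := by
  classical
  induction n with
  | zero =>
    intro x
    apply (Set.finite_singleton x).subset
    intro y hy
    by_contra h
    apply hy
    rw [pn_zero, if_neg]
    exact fun h' => h (h'.symm)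
  | succ n ih =>
    intro x
    apply ((G.neighborFinset x).finite_toSet.biUnion fun z _ => ih z).subset
    intro y hy
    by_contra h
    apply hy
    rw [pn_succ]
    have h0 : ∑ z ∈ G.neighborFinset x, pn G n z y = 0 := by
      apply Finset.sum_eq_zero
      intro z hz
      by_contra h1
      exact h (Set.mem_biUnion (Finset.mem_coe.2 hz) h1)
    rw [h0, zero_div]

theorem mass (d : ℕ) (hd : 0 < d) (hdeg : ∀ v, G.degree v = d) (n : ℕ) :
    ∀ x, HasSum (fun y => pn G n x y) 1 := by
  classical
  induction n with
  | zero =>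
    intro x
    have h : HasSum (fun y => pn G 0 x y) (pn G 0 x x) := by
      apply hasSum_single
      intro y hy
      rw [pn_zero, if_neg]
      exact fun h' => hy h'.symm
    rw [pn_zero, if_pos rfl] at h
    exact h
  | succ n ih =>
    intro x
    have h := (hasSum_sum (s := G.neighborFinset x) fun z _ => ih z).div_const
      ((G.degree x : ℕ) : ℝ)
    have h1 : (∑ _z ∈ G.neighborFinset x, (1 : ℝ)) / ((G.degree x : ℕ) : ℝ) = 1 := by
      rw [Finset.sum_const, nsmul_eq_mul, mul_one, G.card_neighborFinset_eq_degree]
      apply div_self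
      rw [hdeg x]
      exact_mod_cast hd.ne'
    rw [h1] at h
    refine h.congr_fun ?_
    intro y
    exact (pn_succ G n x y)

theorem ck (n : ℕ) (m : ℕ) : ∀ x y,
    HasSum (fun z => pn G n x z * pn G m z y) (pn G (n + m) x y) := by
  classical
  induction n with
  | zero =>
    intro x y
    have h : HasSum (fun z => pn G 0 x z * pn G m z y) (pn G 0 x x * pn G m x y) := by
      apply hasSum_single
      intro z hz
      rw [pn_zero, if_neg (fun h' => hz h'.symm), zero_mul]
    rw [pn_zero, if_pos rfl, one_mul] at h
    rw [Nat.zero_add]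
    exact h
  | succ n ih =>
    intro x y
    have h := (hasSum_sum (s := G.neighborFinset x) fun w _ => ih w y).div_const
      ((G.degree x : ℕ) : ℝ)
    rw [← pn_succ, show n + m + 1 = n + 1 + m by omega] at h
    refine h.congr_fun ?_
    intro z
    rw [pn_succ, div_mul_eq_mul_div, Finset.sum_mul]

theorem one (z y : V) [Decidable (z ∈ G.neighborFinset y)] :
    pn G 1 z y = if z ∈ G.neighborFinset y then 1 / (G.degree z : ℝ) else 0 := by
  classical
  rw [show (1 : ℕ) = 0 + 1 from rfl, pn_succ]
  have h : ∑ w ∈ G.neighborFinset z, pn G 0 w y = if z ∈ G.neighborFinset y then 1 else 0 := by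
    have h1 : ∀ w ∈ G.neighborFinset z, pn G 0 w y = if w = y then 1 else 0 := by
      intro w _
      rw [pn_zero]
    rw [Finset.sum_congr rfl h1, Finset.sum_ite_eq']
    simp only [SimpleGraph.mem_neighborFinset, G.adj_comm]
  rw [h]
  split_ifs
  · rfl
  · rw [zero_div]

theorem symm (d : ℕ) (hdeg : ∀ v, G.degree v = d) (n : ℕ) :
    ∀ x y, pn G n x y = pn G n y x := by
  classical
  induction n with
  | zero =>
    intro x y
    rw [pn_zero, pn_zero]
    simp only [eq_comm]
  | succ n ih =>
    intro x y
    have h1 := ck G n 1 x y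
    have h2 : HasSum (fun z => pn G n x z * pn G 1 z y)
        (∑ z ∈ G.neighborFinset y, pn G n x z * pn G 1 z y) := by
      apply hasSum_sum_of_ne_finset_zero
      intro z hz
      rw [one, if_neg hz, mul_zero]
    rw [h1.unique h2, pn_succ, Finset.sum_div]
    apply Finset.sum_congr rfl
    intro z hz
    rw [one, if_pos hz, hdeg z, hdeg y, ih z x]
    ring

end FRSYM

theorem fr_sym : S_SYM := by
  intro V G _ d hd hdeg
  exact ⟨FRSYM.nonneg G, FRSYM.symm G d hdeg, FRSYM.mass G d hd hdeg, FRSYM.ck G,
    FRSYM.finite G⟩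

end Pool.Agent.H772
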