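import Pool.Agent.H867.FT.Gen2

/-!
# FTQ BCN: `β C^(q-1) ⊆ R`
-/

set_option autoImplicit false
set_option linter.all false

namespace Pool.Agent.H772.FTBCN

open Pool.Agent.H867.FT
open scoped nonZeroDivisors

/-- the localization at a prime of height one -/
theorem isDVR (P : Type) [CommRing P] [IsDomain P] [IsNoetherianRing P] [IsIntegrallyClosed P]
    (𝔭 : Ideal P) [h𝔭 : 𝔭.IsPrime] (hh : 𝔭.height = 1) :
    IsDiscreteValuationRing (Localization.AtPrime 𝔭) := by
  have hdim : ringKrullDim (Localization.AtPrime 𝔭) = 1 := by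
    rw [IsLocalization.AtPrime.ringKrullDim_eq_height 𝔭 (Localization.AtPrime 𝔭), hh]
    rfl
  haveI : IsNoetherianRing (Localization.AtPrime 𝔭) :=
    IsLocalization.isNoetherianRing 𝔭.primeCompl _ inferInstance
  haveI hic : IsIntegrallyClosed (Localization.AtPrime 𝔭) :=
    isIntegrallyClosed_of_isLocalization (R := P) (S := Localization.AtPrime 𝔭) 𝔭.primeCompl (Ideal.primeCompl_le_nonZeroDivisors 𝔭)
  haveI : Ring.KrullDimLE 1 (Localization.AtPrime 𝔭) := Ring.krullDimLE_iff.2 (le_of_eq hdim)
  have hnf : ¬ IsField (Localization.AtPrime 𝔭) := by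
    intro hf
    have := ringKrullDim_eq_zero_of_isField hf
    rw [hdim] at this
    exact one_ne_zero this
  have h : (IsIntegrallyClosed (Localization.AtPrime 𝔭) ∧
      ∃! Q : Ideal (Localization.AtPrime 𝔭), Q ≠ ⊥ ∧ Q.IsPrime) ↔
      IsDiscreteValuationRing (Localization.AtPrime 𝔭) :=
    (IsDiscreteValuationRing.TFAE (Localization.AtPrime 𝔭) hnf).out 3 0
  refine h.1 ⟨hic, IsLocalRing.maximalIdeal _, ⟨?_, inferInstance⟩, ?_⟩
  · exact fun h => hnf (IsLocalRing.isField_iff_maximalIdeal_eq.2 h)
  · rintro Q ⟨hQ, hQ'⟩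
    exact IsLocalRing.eq_maximalIdeal (hQ'.isMaximal_of_ne_bot hQ)

section

variable {P R L K : Type} [CommRing P] [IsDomain P] [CommRing R] [IsDomain R]
  [Algebra P R] [Field L] [Algebra P L] [IsFractionRing P L]
  [Field K] [Algebra R K] [IsFractionRing R K] [Algebra P K] [IsScalarTower P R K]
  [Algebra L K] [IsScalarTower P L K]

theorem tr_span {n : ℕ} (b : Fin n → R) (hb : Submodule.span P (Set.range b) = ⊤) (y : K)
    (h : ∀ i, ∃ g : P, algebraMap P L g = Algebra.trace L K (y * algebraMap R K (b i))) (r : R) :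
    ∃ g : P, algebraMap P L g = Algebra.trace L K (y * algebraMap R K r) := by
  have hr : r ∈ Submodule.span P (Set.range b) := by rw [hb]; trivial
  induction hr using Submodule.span_induction with
  | mem x hx =>
    obtain ⟨i, rfl⟩ := hx
    exact h i
  | zero => exact ⟨0, by rw [map_zero, map_zero, mul_zero, map_zero]⟩
  | add x z _ _ hx hz =>
    obtain ⟨g, hg⟩ := hx
    obtain ⟨g', hg'⟩ := hz
    exact ⟨g + g', by rw [map_add, map_add, mul_add, map_add, hg, hg']⟩
  | smul c x _ hx =>
    obtain ⟨g, hg⟩ := hx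
    refine ⟨c * g, ?_⟩
    rw [map_mul, hg, Algebra.smul_def, map_mul (algebraMap R K),
      ← IsScalarTower.algebraMap_apply P R K, IsScalarTower.algebraMap_apply P L K]
    have e : y * (algebraMap L K (algebraMap P L c) * algebraMap R K x) =
        (algebraMap P L c) • (y * algebraMap R K x) := by
      rw [Algebra.smul_def]; ring
    rw [e, map_smul, smul_eq_mul]

end

theorem free_of (V W : Type) [CommRing V] [IsDomain V] [IsPrincipalIdealRing V] [CommRing W]
    [IsDomain W] [Algebra V W] [Module.Finite V W] (h : Function.Injective (algebraMap V W)) :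
    Module.Free V W := by
  haveI : FaithfulSMul V W := (faithfulSMul_iff_algebraMap_injective V W).2 h
  haveI : Module.IsTorsionFree V W := inferInstance
  exact Module.free_of_finite_type_torsion_free'

/-- the local statement -/
theorem local_part (h1 : S_DIF) (q : ℕ) (P R L K V W : Type) [CommRing P] [IsDomain P]
    [CommRing R] [IsDomain R]
    [Algebra P R] [Module.Finite P R] [Field L]
    [Algebra P L] [IsFractionRing P L]
    [Field K] [Algebra R K] [IsFractionRing R K] [Algebra P K] [IsScalarTower P R K]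
    [Algebra L K] [IsScalarTower P L K] [FiniteDimensional L K]
    [Algebra.IsSeparable L K]
    (C : Submodule R K) (β : K) (hq : 1 ≤ q)
    (hC : ∀ y : K, y ∈ C ↔
      ∀ r : R, ∃ g : P, algebraMap P L g = Algebra.trace L K (y * algebraMap R K r))
    (hβC : ∀ y ∈ C, β * y ^ q ∈ C) (𝔭 : Ideal P) [𝔭.IsPrime]
    [CommRing V] [IsDomain V] [IsDiscreteValuationRing V] [Algebra P V]
    [IsLocalization 𝔭.primeCompl V]
    [CommRing W] [IsDomain W] [Algebra R W]
    [IsLocalization (Algebra.algebraMapSubmonoid R 𝔭.primeCompl) W]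
    [Algebra V W] [Algebra P W] [IsScalarTower P V W] [IsScalarTower P R W]
    [Algebra V L] [IsScalarTower P V L] [IsFractionRing V L]
    [Algebra W K] [IsScalarTower R W K] [IsFractionRing W K]
    [Algebra V K] [IsScalarTower V L K] [IsScalarTower V W K] [IsIntegralClosure W V K]
    [Module.Finite V W] [Module.Free V W] :
    ∀ y ∈ C ^ (q - 1), ∀ i : ℕ, ∃ s : P, s ∉ 𝔭 ∧ ∃ g : P,
      algebraMap P L s * (minpoly L (β * y)).coeff i = algebraMap P L g := by
  classical
  obtain ⟨δ, hδ0, hδ, -⟩ := h1 V L W K _ (Module.finBasis V W)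
  haveI : IsScalarTower P V K := by
    refine IsScalarTower.of_algebraMap_eq fun x => ?_
    rw [IsScalarTower.algebraMap_apply P L K, IsScalarTower.algebraMap_apply P V L,
      ← IsScalarTower.algebraMap_apply V L K]
  haveI : IsScalarTower P W K := by
    refine IsScalarTower.of_algebraMap_eq fun x => ?_
    rw [IsScalarTower.algebraMap_apply P R K, IsScalarTower.algebraMap_apply R W K,
      ← IsScalarTower.algebraMap_apply P R W]
  have hWinj : Function.Injective (algebraMap W K) := IsFractionRing.injective W K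
  have hdK : algebraMap W K δ ≠ 0 := fun h => hδ0 (hWinj (by rw [h, map_zero]))
  -- the elements of `C` are in `δ⁻¹ W`
  have hCW : ∀ y ∈ C, ∃ w : W, y * algebraMap W K δ = algebraMap W K w := by
    intro y hy
    refine (hδ y).1 fun w => ?_
    obtain ⟨⟨r, m⟩, hw⟩ := IsLocalization.surj (Algebra.algebraMapSubmonoid R 𝔭.primeCompl) w
    obtain ⟨m₀, hm₀, hm⟩ := m.2
    obtain ⟨g, hg⟩ := (hC _).1 hy r
    refine ⟨IsLocalization.mk' V g (⟨m₀, hm₀⟩ : 𝔭.primeCompl), ?_⟩
    have hm0L : algebraMap P L m₀ ≠ 0 := by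
      intro h
      have : m₀ = 0 := IsFractionRing.injective P L (by rw [h, map_zero])
      exact hm₀ (by rw [this]; exact 𝔭.zero_mem)
    have q1 : algebraMap V L (IsLocalization.mk' V g (⟨m₀, hm₀⟩ : 𝔭.primeCompl)) * algebraMap P L m₀ =
        algebraMap P L g := by
      rw [IsScalarTower.algebraMap_apply P V L m₀, ← map_mul, IsLocalization.mk'_spec,
        ← IsScalarTower.algebraMap_apply P V L]
    have q2 : algebraMap W K w * algebraMap P K m₀ = algebraMap R K r := by
      have := congrArg (algebraMap W K) hw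
      rw [map_mul, ← IsScalarTower.algebraMap_apply R W K, ← IsScalarTower.algebraMap_apply R W K] at this
      rw [← this, ← hm]
      rw [← IsScalarTower.algebraMap_apply P R K]
    rw [← q2] at hg
    have e : y * (algebraMap W K w * algebraMap P K m₀) =
      (algebraMap P L m₀) • (y * algebraMap W K w) := by
      rw [Algebra.smul_def, ← IsScalarTower.algebraMap_apply P L K]; ring
    rw [e, map_smul, smul_eq_mul, ← q1, mul_comm] at hg
    exact mul_left_cancel₀ hm0L hg
  -- step 1
  have hdual : ∀ w : W, ∃ v : V, algebraMap V L v = Algebra.trace L K ((algebraMap W K δ)⁻¹ * algebraMap W K w) :=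
    (hδ (algebraMap W K δ)⁻¹).2 ⟨1, by rw [inv_mul_cancel₀ hdK, map_one]⟩
  obtain ⟨n, b, hb⟩ := Module.Finite.exists_fin (R := P) (M := R)
  obtain ⟨s, hs𝔭, hsC⟩ : ∃ s : P, s ∉ 𝔭 ∧ algebraMap P K s * (algebraMap W K δ)⁻¹ ∈ C := by
    choose v hv using fun i => hdual (algebraMap R W (b i))
    obtain ⟨s, hs⟩ := IsLocalization.exist_integer_multiples_of_finite 𝔭.primeCompl v
    refine ⟨s, s.2, (hC _).2 (tr_span b hb _ fun i => ?_)⟩
    obtain ⟨g, hg⟩ := hs i
    refine ⟨g, ?_⟩
    have e1 : algebraMap P L g = algebraMap P L s * algebraMap V L (v i) := by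
      rw [IsScalarTower.algebraMap_apply P V L, hg, Algebra.smul_def, map_mul,
        ← IsScalarTower.algebraMap_apply P V L]
    rw [e1, hv, ← IsScalarTower.algebraMap_apply R W K, IsScalarTower.algebraMap_apply P L K]
    have e : algebraMap L K (algebraMap P L (s : P)) * (algebraMap W K δ)⁻¹ * algebraMap R K (b i) =
      (algebraMap P L (s : P)) • ((algebraMap W K δ)⁻¹ * algebraMap R K (b i)) := by
      rw [Algebra.smul_def]; ring
    rw [e, map_smul, smul_eq_mul]
  -- step 2
  obtain ⟨w₀, hw₀⟩ := hCW _ (hβC _ hsC)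
  have hsu : IsUnit (algebraMap P W s) := by
    have := IsLocalization.map_units W (⟨algebraMap P R s, ⟨s, hs𝔭, rfl⟩⟩ :
      Algebra.algebraMapSubmonoid R 𝔭.primeCompl)
    rwa [← IsScalarTower.algebraMap_apply P R W] at this
  obtain ⟨su, hsu'⟩ := hsu
  obtain ⟨σ, hσ⟩ : ∃ σ : W, σ = w₀ * ((su⁻¹ : Wˣ) : W) ^ q := ⟨_, rfl⟩
  have hsinv : algebraMap W K ((su⁻¹ : Wˣ) : W) * algebraMap P K s = 1 := by
    rw [IsScalarTower.algebraMap_apply P W K, ← hsu', ← map_mul, Units.inv_mul, map_one]
  have hβσ : β = algebraMap W K (δ ^ (q - 1) * σ) := by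
    rw [hσ, map_mul, map_mul, map_pow, map_pow, ← hw₀]
    have e1 : (algebraMap W K δ) ^ (q - 1) * ((algebraMap W K δ)⁻¹ ^ q * algebraMap W K δ) = 1 := by
      obtain ⟨q', rfl⟩ : ∃ q', q = q' + 1 := ⟨q - 1, by omega⟩
      rw [Nat.add_sub_cancel, inv_pow]
      field_simp
      ring
    have e2 : algebraMap P K s ^ q * algebraMap W K ((su⁻¹ : Wˣ) : W) ^ q = 1 := by
      rw [← mul_pow, mul_comm (algebraMap P K s), hsinv, one_pow]
    calc β = β * (algebraMap P K s ^ q * algebraMap W K ((su⁻¹ : Wˣ) : W) ^ q) *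
          ((algebraMap W K δ) ^ (q - 1) * ((algebraMap W K δ)⁻¹ ^ q * algebraMap W K δ)) := by
            rw [e1, e2]; ring
      _ = _ := by rw [mul_pow]; ring
  -- powers of `C`
  have hpow : ∀ m : ℕ, ∀ y ∈ C ^ m, ∃ w : W, y * algebraMap W K δ ^ m = algebraMap W K w := by
    intro m
    induction m with
    | zero =>
      intro y hy
      rw [pow_zero, Submodule.mem_one] at hy
      obtain ⟨r, rfl⟩ := hy
      exact ⟨algebraMap R W r, by rw [pow_zero, mul_one, ← IsScalarTower.algebraMap_apply R W K]⟩
    | succ m ih =>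
      intro y hy
      rw [pow_succ] at hy
      refine Submodule.mul_induction_on hy ?_ ?_
      · intro u hu v hv
        obtain ⟨w, hw⟩ := ih u hu
        obtain ⟨w', hw'⟩ := hCW v hv
        refine ⟨w * w', ?_⟩
        rw [map_mul, ← hw, ← hw', pow_succ]
        ring
      · intro x z hx hz
        obtain ⟨w, hw⟩ := hx
        obtain ⟨w', hw'⟩ := hz
        exact ⟨w + w', by rw [map_add, ← hw, ← hw', add_mul]⟩
  intro y hy i
  obtain ⟨w, hw⟩ := hpow (q - 1) y hy
  have hβy : β * y = algebraMap W K (σ * w) := by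
    rw [hβσ, map_mul, map_mul, map_pow, ← hw]
    ring
  have hint : IsIntegral V (β * y) := by
    rw [hβy]
    exact (IsIntegralClosure.isIntegral V K (σ * w)).map (IsScalarTower.toAlgHom V W K)
  haveI : IsIntegrallyClosed V := inferInstance
  rw [minpoly.isIntegrallyClosed_eq_field_fractions' (R := V) L hint, Polynomial.coeff_map]
  obtain ⟨⟨g, s'⟩, hg⟩ := IsLocalization.surj 𝔭.primeCompl ((minpoly V (β * y)).coeff i)
  refine ⟨s', s'.2, g, ?_⟩
  have := congrArg (algebraMap V L) hg
  rw [map_mul, ← IsScalarTower.algebraMap_apply P V L, ← IsScalarTower.algebraMap_apply P V L] at this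
  rw [mul_comm]
  exact this

theorem bcn (h1 : Pool.Agent.H867.FT.S_DIF) (h2 : Pool.Agent.H867.FT.S_KRU) :
    Pool.Agent.H867.FT.S_BCN := by
  intro q P R L K _ _ _ _ _ _ _ _ _ _ _ _ _ _ _ _ _ _ _ _ _ C β hq hC hβC y hy
  have hPR : Function.Injective (algebraMap P R) := by
    have h : Function.Injective (algebraMap P K) := by
      rw [IsScalarTower.algebraMap_eq P L K]
      exact (algebraMap L K).injective.comp (IsFractionRing.injective P L)
    rw [IsScalarTower.algebraMap_eq P R K] at h
    exact Function.Injective.of_comp h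
  haveI : IsIntegralClosure R P K := IsIntegralClosure.of_isIntegrallyClosed R P K
  -- the coefficients are in `P`
  have hcoef : ∀ i : ℕ, ∃ g : P, (minpoly L (β * y)).coeff i = algebraMap P L g := by
    intro i
    refine h2 P L _ fun 𝔭 h𝔭 hh => ?_
    haveI := isDVR P 𝔭 hh
    have hM : 𝔭.primeCompl ≤ P⁰ := Ideal.primeCompl_le_nonZeroDivisors 𝔭
    have hM' : Algebra.algebraMapSubmonoid R 𝔭.primeCompl ≤ R⁰ := by
      rintro _ ⟨x, hx, rfl⟩
      rw [mem_nonZeroDivisors_iff_ne_zero]
      intro h
      have : x = 0 := hPR (by rw [h, map_zero])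
      exact hx (by rw [this]; exact 𝔭.zero_mem)
    let V := Localization.AtPrime 𝔭
    let W := Localization (Algebra.algebraMapSubmonoid R 𝔭.primeCompl)
    haveI : IsDomain W := IsLocalization.isDomain_localization hM'
    let f : V →+* L := IsLocalization.map _ (T := P⁰) (RingHom.id P) hM
    let g : W →+* K := IsLocalization.map _ (T := R⁰) (RingHom.id R) hM'
    letI : Algebra V L := f.toAlgebra
    letI : Algebra W K := g.toAlgebra
    letI : Algebra V K := ((algebraMap L K).comp f).toAlgebra
    haveI : IsScalarTower V L K := IsScalarTower.of_algebraMap_eq' rfl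
    haveI : IsScalarTower P V L := by
      refine IsScalarTower.of_algebraMap_eq fun x => ?_
      have e : f (algebraMap P V x) = algebraMap P L (RingHom.id P x) := IsLocalization.map_eq hM x
      exact e.symm
    haveI : IsFractionRing V L := IsFractionRing.isFractionRing_of_isDomain_of_isLocalization 𝔭.primeCompl V L
    haveI : IsScalarTower R W K := by
      refine IsScalarTower.of_algebraMap_eq fun x => ?_
      have e : g (algebraMap R W x) = algebraMap R K (RingHom.id R x) := IsLocalization.map_eq hM' x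
      exact e.symm
    haveI : IsFractionRing W K := IsFractionRing.isFractionRing_of_isDomain_of_isLocalization
      (Algebra.algebraMapSubmonoid R 𝔭.primeCompl) W K
    haveI : IsScalarTower V W K := by
      apply IsScalarTower.of_algebraMap_eq'
      apply IsLocalization.ringHom_ext 𝔭.primeCompl
      ext x
      simp only [RingHom.comp_apply]
      rw [← IsScalarTower.algebraMap_apply P V W, IsScalarTower.algebraMap_apply P R W,
        ← IsScalarTower.algebraMap_apply R W K, ← IsScalarTower.algebraMap_apply P R K,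
        IsScalarTower.algebraMap_apply V L K, ← IsScalarTower.algebraMap_apply P V L,
        ← IsScalarTower.algebraMap_apply P L K]
    haveI : IsIntegrallyClosed W := isIntegrallyClosed_of_isLocalization (R := R) (S := W)
      (Algebra.algebraMapSubmonoid R 𝔭.primeCompl) hM'
    haveI : Module.Finite V W := Module.Finite.of_isLocalization P R 𝔭.primeCompl
    haveI : IsIntegralClosure W V K := IsIntegralClosure.of_isIntegrallyClosed W V K
    have hVW : Function.Injective (algebraMap V W) := by
      intro x z hxz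
      have h := congrArg (algebraMap W K) hxz
      rw [← IsScalarTower.algebraMap_apply V W K, ← IsScalarTower.algebraMap_apply V W K,
        IsScalarTower.algebraMap_apply V L K, IsScalarTower.algebraMap_apply V L K] at h
      exact IsFractionRing.injective V L ((algebraMap L K).injective h)
    haveI : Module.Free V W := free_of V W hVW
    exact local_part h1 q P R L K V W C β hq hC hβC 𝔭 y hy i
  -- `β y` is integral over `P`
  have hint : IsIntegral P (β * y) := by
    have hL : IsIntegral L (β * y) := IsIntegral.of_finite L _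
    have hlift : minpoly L (β * y) ∈ Polynomial.lifts (algebraMap P L) := by
      rw [Polynomial.lifts_iff_coeff_lifts]
      intro i
      obtain ⟨g, hg⟩ := hcoef i
      exact ⟨g, hg.symm⟩
    obtain ⟨Q, hQ, -, hQm⟩ := Polynomial.lifts_and_degree_eq_and_monic hlift (minpoly.monic hL)
    refine ⟨Q, hQm, ?_⟩
    have h3 := minpoly.aeval L (β * y)
    rw [← hQ, Polynomial.aeval_map_algebraMap] at h3
    exact h3
  obtain ⟨r, hr⟩ := (IsIntegralClosure.isIntegral_iff (A := R)).1 hint
  exact ⟨r, hr.symm⟩

end Pool.Agent.H772.FTBCN
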