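import Mathlib
import Pool.Agent.H867.FT.Gen

/-!
# FTG BET: a Cartier map is represented by an element `β`
-/

set_option autoImplicit false
set_option linter.unusedSectionVars false

open scoped nonZeroDivisors

namespace Pool.Agent.H772.FT

open Pool.Agent.H867.FT

section

variable {P R L K : Type} [CommRing P] [IsDomain P] [CommRing R] [IsDomain R]
    [Algebra P R] [Module.Finite P R] [Module.Free P R] [Field L]
    [Algebra P L] [IsFractionRing P L]
    [Field K] [Algebra R K] [IsFractionRing R K] [Algebra P K] [IsScalarTower P R K]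
    [Algebra L K] [IsScalarTower P L K]

include L K in
theorem faithful_PR : FaithfulSMul P R := by
  rw [faithfulSMul_iff_algebraMap_injective]
  have h1 : Function.Injective (algebraMap P K) := by
    rw [IsScalarTower.algebraMap_eq P L K]
    exact (algebraMap L K).injective.comp (IsFractionRing.injective P L)
  rw [IsScalarTower.algebraMap_eq P R K] at h1
  exact Function.Injective.of_comp h1

include L in
theorem isLoc_PK : IsLocalization (Algebra.algebraMapSubmonoid R P⁰) K := by
  have : FaithfulSMul P R := faithful_PR (L := L) (K := K)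
  have : Algebra.IsAlgebraic P R := inferInstance
  exact inferInstance

theorem trace_R (r : R) :
    Algebra.trace L K (algebraMap R K r) = algebraMap P L (Algebra.trace P R r) := by
  have : IsLocalization (Algebra.algebraMapSubmonoid R P⁰) K := isLoc_PK (L := L)
  exact Algebra.trace_localization P P⁰ r

include L in
theorem exists_rep (y : K) : ∃ (r : R) (s : P), s ≠ 0 ∧ algebraMap P K s * y = algebraMap R K r := by
  have : IsLocalization (Algebra.algebraMapSubmonoid R P⁰) K := isLoc_PK (L := L)
  obtain ⟨⟨r, s⟩, hs⟩ := IsLocalization.surj (Algebra.algebraMapSubmonoid R P⁰) y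
  obtain ⟨s', hs', hse⟩ := s.2
  refine ⟨r, s', nonZeroDivisors.ne_zero hs', ?_⟩
  have h1 : algebraMap P K s' = algebraMap R K (s : R) := by
    rw [IsScalarTower.algebraMap_apply P R K, hse]
  rw [h1, mul_comm]
  exact hs

/-- The Cartier map `g ↦ Tr (φ (g b))`. -/
noncomputable def psiMap (φ : R →+ R) (b : R) : P →+ P :=
  ((Algebra.trace P R).toAddMonoidHom.comp φ).comp
    ((AddMonoidHom.mulRight b).comp (algebraMap P R).toAddMonoidHom)

theorem psiMap_apply (φ : R →+ R) (b : R) (g : P) :
    psiMap φ b g = Algebra.trace P R (φ (algebraMap P R g * b)) := rfl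

theorem psiMap_cartier {q : ℕ} (φ : R →+ R) (hφ : IsCartier q φ) (b : R) :
    IsCartier q (psiMap (P := P) φ b) := by
  intro r s
  rw [psiMap_apply, psiMap_apply, RingHom.map_mul, RingHom.map_pow, mul_assoc, hφ,
    ← Algebra.smul_def, map_smul, smul_eq_mul]

end

theorem bet (h : S_EXT) : S_BET := by
  intro q P R L K _ _ _ _ _ _ _ _ _ _ _ _ _ _ _ _ _ _ _ T φ hq hT hrep hinj hφ
  obtain ⟨TL, hTL, hTL2⟩ := h P L P⁰ q T hq hT
  obtain ⟨φK, hφK, hφK2⟩ := h R K R⁰ q φ hq hφ
  have hPL : Function.Injective (algebraMap P L) := IsFractionRing.injective P L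
  have hloc : IsLocalization (Algebra.algebraMapSubmonoid R P⁰) K := isLoc_PK (L := L)
  let b := Module.Free.chooseBasis P R
  classical
  have hu : ∀ j, ∃ u : P, ∀ g, psiMap (P := P) φ (b j) g = T (u * g) := fun j =>
    hrep _ (psiMap_cartier φ hφ (b j))
  choose u hu using hu
  let bK := b.localizationLocalization L P⁰ K
  let f : K →ₗ[L] L := bK.constr L (fun j => algebraMap P L (u j))
  have hnd := traceForm_nondegenerate L K
  let β : K := ((Algebra.traceForm L K).toDual hnd).symm f
  have hβ : ∀ y : K, Algebra.trace L K (β * y) = f y := by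
    intro y
    have h1 := LinearMap.BilinForm.apply_toDual_symm_apply (hB := hnd) f y
    exact h1
  have hβb : ∀ j, Algebra.trace L K (β * algebraMap R K (b j)) = algebraMap P L (u j) := by
    intro j
    rw [hβ]
    have h1 : algebraMap R K (b j) = bK j := by
      rw [Module.Basis.localizationLocalization_apply]
    rw [h1]
    exact bK.constr_basis L _ j
  -- the formula on `R`
  have hR : ∀ r : R, Algebra.trace L K (algebraMap R K (φ r)) =
      TL (Algebra.trace L K (β * algebraMap R K r)) := by
    intro r
    have h1 : r = ∑ j, (b.repr r j) • b j := (b.sum_repr r).symm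
    have h2 : Algebra.trace P R (φ r) = T (∑ j, u j * b.repr r j) := by
      conv_lhs => rw [h1]
      rw [map_sum, map_sum, map_sum]
      refine Finset.sum_congr rfl fun j _ => ?_
      rw [← hu j, psiMap_apply, Algebra.smul_def]
    have h3 : Algebra.trace L K (β * algebraMap R K r) = algebraMap P L (∑ j, u j * b.repr r j) := by
      conv_lhs => rw [h1]
      rw [map_sum, Finset.mul_sum, map_sum, map_sum]
      refine Finset.sum_congr rfl fun j _ => ?_
      have h4 : β * algebraMap R K (b.repr r j • b j) =
          (algebraMap P L (b.repr r j)) • (β * algebraMap R K (b j)) := by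
        rw [Algebra.smul_def, map_mul, Algebra.smul_def, ← IsScalarTower.algebraMap_apply P R K,
          ← IsScalarTower.algebraMap_apply P L K]
        ring
      rw [h4, map_smul, hβb, smul_eq_mul, map_mul, mul_comm]
    rw [h3, hTL2, ← h2]
    exact trace_R (φ r)
  have hY : ∀ y : K, Algebra.trace L K (φK y) = TL (Algebra.trace L K (β * y)) := by
    intro y
    obtain ⟨r, s, hs, hry⟩ := exists_rep (P := P) (R := R) (L := L) y
    have hsL : algebraMap P L s ≠ 0 := fun h0 => hs (hPL (by rw [h0, map_zero]))
    have hr' : algebraMap P K s ^ q * y = algebraMap R K (algebraMap P R s ^ (q - 1) * r) := by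
      rw [map_mul, map_pow, ← hry, ← IsScalarTower.algebraMap_apply P R K]
      obtain ⟨q', rfl⟩ : ∃ q', q = q' + 1 := ⟨q - 1, by omega⟩
      rw [Nat.add_sub_cancel]
      ring
    have h1 := hR (algebraMap P R s ^ (q - 1) * r)
    rw [← hφK2, ← hr', hφK] at h1
    have h2 : algebraMap P K s * φK y = (algebraMap P L s) • φK y := by
      rw [Algebra.smul_def, ← IsScalarTower.algebraMap_apply P L K]
    have h3 : β * (algebraMap P K s ^ q * y) = (algebraMap P L s ^ q) • (β * y) := by
      rw [Algebra.smul_def, map_pow, ← IsScalarTower.algebraMap_apply P L K]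
      ring
    rw [h2, h3, map_smul, map_smul, smul_eq_mul, smul_eq_mul, hTL] at h1
    exact mul_left_cancel₀ hsL h1
  refine ⟨TL, φK, β, hTL, hφK, hTL2, hφK2, hY, ?_⟩
  intro y hy r
  set z : L := Algebra.trace L K (β * y ^ q * algebraMap R K r) with hz
  have hex : ∀ g : P, ∃ w : P, algebraMap P L w = TL (z * algebraMap P L g) := by
    intro g
    obtain ⟨w, hw⟩ := hy (φ (r * algebraMap P R g))
    refine ⟨w, ?_⟩
    rw [hw, ← hφK2, ← hφK, hY]
    have h1 : β * (y ^ q * algebraMap R K (r * algebraMap P R g)) =
        (algebraMap P L g) • (β * y ^ q * algebraMap R K r) := by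
      rw [Algebra.smul_def, map_mul, ← IsScalarTower.algebraMap_apply P R K,
        ← IsScalarTower.algebraMap_apply P L K]
      ring
    rw [h1, map_smul, smul_eq_mul, mul_comm]
  choose w hw using hex
  let ψ : P →+ P := AddMonoidHom.mk' w (by
    intro a c
    apply hPL
    rw [map_add, hw, hw, hw, map_add, mul_add, map_add])
  have hψ : IsCartier q ψ := by
    intro a c
    apply hPL
    change algebraMap P L (w (a ^ q * c)) = algebraMap P L (a * w c)
    rw [RingHom.map_mul, hw, hw, RingHom.map_mul, RingHom.map_pow, ← hTL]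
    congr 1
    ring
  obtain ⟨u₀, hu₀⟩ := hrep ψ hψ
  have hzero : ∀ g : P, TL ((z - algebraMap P L u₀) * algebraMap P L g) = 0 := by
    intro g
    have h1 : algebraMap P L (w g) = algebraMap P L (T (u₀ * g)) := by
      rw [← hu₀ g]
      rfl
    rw [sub_mul, map_sub, ← hw, ← map_mul, hTL2, h1, sub_self]
  obtain ⟨⟨a, s⟩, has⟩ := IsLocalization.surj P⁰ (z - algebraMap P L u₀)
  have hs0 : (s : P) ≠ 0 := nonZeroDivisors.ne_zero s.2
  have hsL : algebraMap P L (s : P) ≠ 0 := fun h0 => hs0 (hPL (by rw [h0, map_zero]))
  have ha : ∀ g : P, T ((a * (s : P) ^ (q - 1)) * g) = 0 := by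
    intro g
    apply hPL
    rw [← hTL2, map_zero]
    have h1 : algebraMap P L (a * (s : P) ^ (q - 1) * g) =
        algebraMap P L (s : P) ^ q * ((z - algebraMap P L u₀) * algebraMap P L g) := by
      have has' : (z - algebraMap P L u₀) * algebraMap P L (s : P) = algebraMap P L a := has
      rw [map_mul, map_mul, map_pow, ← has']
      obtain ⟨q', rfl⟩ : ∃ q', q = q' + 1 := ⟨q - 1, by omega⟩
      rw [Nat.add_sub_cancel]
      ring
    rw [h1, hTL, hzero, mul_zero]
  have ha0 := hinj _ ha
  have ha1 : a = 0 := by
    rcases mul_eq_zero.mp ha0 with h0 | h0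
    · exact h0
    · exact absurd h0 (pow_ne_zero _ hs0)
  have has' : (z - algebraMap P L u₀) * algebraMap P L (s : P) = algebraMap P L a := has
  rw [ha1, map_zero] at has'
  rcases mul_eq_zero.mp has' with h0 | h0
  · exact ⟨u₀, (sub_eq_zero.mp h0).symm⟩
  · exact absurd h0 hsL

end Pool.Agent.H772.FT
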